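import Pool.Agent.Lib.MP_1822da_lc.KC.WrB
import Pool.Agent.Lib.MP_1822da_lc.CP.Fin

/-!
# Kempe partners, families of Kempe homogeneous sets, the upper bound
-/

namespace Pool.Agent.MP1822K

open Set MeasureTheory Pointwise
open Pool.Agent.Lib.MP_1822da_lc Pool.Agent.MP1822T Pool.Agent.MP1822C

universe u v

variable {Γ : Type u} [Group Γ]

/-- `s` is a Kempe partner of `g`: `s` is an involution and
* the commutator of `g` and `s` has finite order, and some homomorphism `⟨g, s⟩ → {1, -1}` has the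
  value `-1` at `g` and the value `1` at `s`, or
* `g s` has finite order, and some homomorphism `⟨g, s⟩ → {1, -1}` has the value `-1` at `g` and
  at `s`, or
* `g` commutes with `s g s`, and the cyclic groups generated by `g` and `s g s` meet trivially. -/
def KempePartner (g s : Γ) : Prop :=
  s * s = 1 ∧ s ≠ 1 ∧
    ((IsOfFinOrder (g * s * g⁻¹ * s⁻¹) ∧ ∃ χ : Subgroup.closure ({g, s} : Set Γ) →* ℤˣ,
      ∀ x : Subgroup.closure ({g, s} : Set Γ), ((x : Γ) = g → χ x = -1) ∧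
        ((x : Γ) = s → χ x = 1)) ∨
    (IsOfFinOrder (g * s) ∧ ∃ χ : Subgroup.closure ({g, s} : Set Γ) →* ℤˣ,
      ∀ x : Subgroup.closure ({g, s} : Set Γ), ((x : Γ) = g → χ x = -1) ∧
        ((x : Γ) = s → χ x = -1)) ∨
    (g * (s * g * s) = s * g * s * g ∧
      Subgroup.zpowers g ⊓ Subgroup.zpowers (s * g * s) = ⊥))

/-- a finite symmetric set which is Kempe homogeneous over `J`, or a block over `J` for some `θ` -/
def KempeSet (J T : Finset Γ) : Prop :=
  (∀ t ∈ T, t⁻¹ ∈ T) ∧ (KempeHomJ J T ∨ ∃ θ, IsBlock J T θ)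

lemma KempeSet.hom {J T : Finset Γ} (h : KempeSet J T) : KempeHomJ J T := by
  rcases h.2 with h | ⟨θ, h⟩
  · exact h
  · exact h.kempeHomJ θ

section dec

variable [DecidableEq Γ]

theorem wr_kempe' {g s : Γ} {J : Finset Γ} (hJ : ∀ t ∈ J, t * t = 1) (hs : s * s = 1)
    (hc : g * (s * g * s) = s * g * s * g)
    (hb : Subgroup.zpowers g ⊓ Subgroup.zpowers (s * g * s) = ⊥) (hg : ¬ IsOfFinOrder g) :
    KempeHomJ J (tri g s) := by
  classical
  have hT : ∀ t : gp (tri g s), t ∈ tri (gg g s) (gs g s) ↔ (t : Γ) ∈ tri g s := by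
    intro t
    rw [mem_tri, mem_tri]
    constructor
    · rintro (rfl | rfl | rfl)
      · exact Or.inl rfl
      · exact Or.inr (Or.inl rfl)
      · exact Or.inr (Or.inr rfl)
    · rintro (h | h | h)
      · exact Or.inl (Subtype.ext h)
      · exact Or.inr (Or.inl (Subtype.ext h))
      · exact Or.inr (Or.inr (Subtype.ext h))
  refine KempeHomJ.of_subgroup hT (tri_symm hs) (J' := J.subtype (fun x => x ∈ gp (tri g s)))
    (fun t ht => Finset.mem_subtype.2 ht) ?_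
  refine wr_kempe ?_ ?_ ?_ ?_ ?_ ?_
  · intro t ht
    exact Subtype.ext (hJ _ (Finset.mem_subtype.1 ht))
  · exact Subtype.ext hs
  · exact Subtype.ext hc
  · rw [eq_bot_iff]
    rintro x ⟨⟨a, ha⟩, ⟨b, hb'⟩⟩
    rw [Subgroup.mem_bot]
    apply Subtype.ext
    have h1 : (x : Γ) ∈ Subgroup.zpowers g ⊓ Subgroup.zpowers (s * g * s) := by
      refine ⟨⟨a, ?_⟩, ⟨b, ?_⟩⟩
      · exact congrArg Subtype.val ha
      · exact congrArg Subtype.val hb'
    rw [hb, Subgroup.mem_bot] at h1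
    exact h1
  · intro h
    exact hg (Submonoid.isOfFinOrder_coe.2 h)
  · have h1 : gp (tri (gg g s) (gs g s)) = ⊤ := by
      have h2 : ((tri (gg g s) (gs g s) : Finset (gp (tri g s))) : Set (gp (tri g s))) =
          (fun x : gp (tri g s) => (x : Γ)) ⁻¹' (tri g s : Set Γ) := by
        ext t
        exact hT t
      unfold gp
      rw [h2]
      exact Subgroup.closure_closure_coe_preimage
    rw [← gp_tri]
    exact h1

lemma KempePartner.kempeHomJ {g s : Γ} {J : Finset Γ} (hJ : ∀ t ∈ J, t * t = 1)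
    (hg : ¬ IsOfFinOrder g) (h : KempePartner g s) : KempeHomJ J (tri g s) := by
  obtain ⟨hs, hs1, ⟨h1, χ, hχ⟩ | ⟨h1, χ, hχ⟩ | ⟨h1, h2⟩⟩ := h
  · obtain ⟨θ, hθ⟩ := KPart.isBlock (g := g) (s := s) hJ hg
      ⟨hs, hs1, χ, fun x => (hχ x).1, Or.inl ⟨fun x => (hχ x).2, h1⟩⟩
    exact hθ.kempeHomJ θ
  · obtain ⟨θ, hθ⟩ := KPart.isBlock (g := g) (s := s) hJ hg
      ⟨hs, hs1, χ, fun x => (hχ x).1, Or.inr ⟨fun x => (hχ x).2, h1⟩⟩
    exact hθ.kempeHomJ θ
  · exact wr_kempe' hJ hs h1 h2 hg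

lemma KempeHomJ.empty (J : Finset Γ) : KempeHomJ J ∅ :=
  ⟨fun γ _ => γ, 0, 0, ⟨by simp, by simp, by simp⟩, by simp, fun δ => .zero (by
    intro γ hγ
    simp at hγ)⟩

lemma KempeHomJ.biUnion {J : Finset Γ} (𝓣 : Finset (Finset Γ))
    (hs : ∀ T ∈ 𝓣, ∀ t ∈ T, t⁻¹ ∈ T) (hh : ∀ T ∈ 𝓣, KempeHomJ J T)
    (hm : ∀ T ∈ 𝓣, ∀ T' ∈ 𝓣, T ≠ T' → T ∩ T' ⊆ J) : KempeHomJ J (𝓣.biUnion id) := by
  induction 𝓣 using Finset.induction_on with
  | empty => simpa using KempeHomJ.empty J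
  | insert T 𝓣 hT ih =>
    rw [Finset.biUnion_insert]
    refine KempeHomJ.union (hs T (Finset.mem_insert_self _ _)) ?_ ?_
      (hh T (Finset.mem_insert_self _ _)) (ih ?_ ?_ ?_)
    · intro t ht
      obtain ⟨T', hT', htT⟩ := Finset.mem_biUnion.1 ht
      exact Finset.mem_biUnion.2 ⟨T', hT', hs T' (Finset.mem_insert_of_mem hT') t htT⟩
    · intro t ht
      obtain ⟨h1, h2⟩ := Finset.mem_inter.1 ht
      obtain ⟨T', hT', htT⟩ := Finset.mem_biUnion.1 h2
      refine hm T (Finset.mem_insert_self _ _) T' (Finset.mem_insert_of_mem hT') ?_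
        (Finset.mem_inter.2 ⟨h1, htT⟩)
      rintro rfl
      exact hT hT'
    · exact fun T' h => hs T' (Finset.mem_insert_of_mem h)
    · exact fun T' h => hh T' (Finset.mem_insert_of_mem h)
    · exact fun T' h T'' h' => hm T' (Finset.mem_insert_of_mem h) T'' (Finset.mem_insert_of_mem h')

/-- adding elements of infinite order with Kempe partners -/
lemma exists_extension {J S : Finset Γ} (hJ : ∀ t ∈ J, t * t = 1) (hsymm : ∀ t ∈ S, t⁻¹ ∈ S)
    {B₀ : Finset Γ} (hB₀ : ∀ t ∈ B₀, t⁻¹ ∈ B₀) (hB₀S : B₀ ⊆ S) (hh : KempeHomJ J B₀) (n : ℕ) :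
    ∀ A : Finset Γ, A.card = n → (∀ g ∈ A, g⁻¹ ∈ A) → A ⊆ S → (∀ g ∈ A, ¬ IsOfFinOrder g) →
      (∀ g ∈ A, g ∉ B₀) → (∀ g ∈ A, ∃ s ∈ S, s ∈ J ∧ KempePartner g s) →
      ∃ B : Finset Γ, B₀ ⊆ B ∧ A ⊆ B ∧ B ⊆ S ∧ (∀ t ∈ B, t⁻¹ ∈ B) ∧ KempeHomJ J B ∧
        ∀ t ∈ B, t ∈ J ∨ t ∈ A ∨ t ∈ B₀ := by
  induction n using Nat.strong_induction_on with
  | _ n ih =>
    intro A hA hAs hAS hAi hAB hAp
    rcases A.eq_empty_or_nonempty with rfl | ⟨g, hg⟩
    · exact ⟨B₀, subset_rfl, by simp, hB₀S, hB₀, hh, fun t ht => Or.inr (Or.inr ht)⟩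
    · obtain ⟨s, hsS, hsJ, hp⟩ := hAp g hg
      have hlt : (A \ {g, g⁻¹}).card < n := by
        rw [← hA]
        refine Finset.card_lt_card (Finset.sdiff_ssubset ?_ ⟨g, by simp⟩)
        intro x hx
        rcases Finset.mem_insert.1 hx with rfl | hx
        · exact hg
        · rw [Finset.mem_singleton.1 hx]
          exact hAs g hg
      have hA1 : ∀ x ∈ A \ {g, g⁻¹}, x⁻¹ ∈ A \ {g, g⁻¹} := by
        intro x hx
        obtain ⟨hxA, hxg⟩ := Finset.mem_sdiff.1 hx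
        refine Finset.mem_sdiff.2 ⟨hAs x hxA, fun h => hxg ?_⟩
        simp only [Finset.mem_insert, Finset.mem_singleton] at h ⊢
        rcases h with h | h
        · right
          rw [← h, inv_inv]
        · left
          exact inv_injective h
      obtain ⟨B, h1, h2, h3, h4, h5, h6⟩ := ih _ hlt (A \ {g, g⁻¹}) rfl hA1
        (Finset.sdiff_subset.trans hAS)
        (fun x hx => hAi x (Finset.mem_sdiff.1 hx).1)
        (fun x hx => hAB x (Finset.mem_sdiff.1 hx).1)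
        (fun x hx => hAp x (Finset.mem_sdiff.1 hx).1)
      have hgJ : ∀ x, x * x = 1 → x ≠ g ∧ x ≠ g⁻¹ := by
        intro x hx
        have hxf : IsOfFinOrder x := isOfFinOrder_iff_pow_eq_one.2
          ⟨2, by norm_num, by rw [pow_two, hx]⟩
        refine ⟨fun h => hAi g hg (h ▸ hxf), fun h => hAi g hg ?_⟩
        rw [← isOfFinOrder_inv_iff, ← h]
        exact hxf
      have hgB : g ∉ B := by
        intro h
        rcases h6 g h with h7 | h7 | h7
        · exact (hgJ g (hJ g h7)).1 rfl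
        · exact (Finset.mem_sdiff.1 h7).2 (by simp)
        · exact hAB g hg h7
      have hgB' : g⁻¹ ∉ B := fun h => hgB (by simpa using h4 _ h)
      refine ⟨B ∪ tri g s, h1.trans Finset.subset_union_left, ?_, ?_, ?_, ?_, ?_⟩
      · intro x hx
        by_cases hxg : x ∈ ({g, g⁻¹} : Finset Γ)
        · refine Finset.mem_union_right _ (mem_tri.2 ?_)
          simp only [Finset.mem_insert, Finset.mem_singleton] at hxg
          tauto
        · exact Finset.mem_union_left _ (h2 (Finset.mem_sdiff.2 ⟨hx, hxg⟩))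
      · refine Finset.union_subset h3 fun x hx => ?_
        rcases mem_tri.1 hx with rfl | rfl | rfl
        · exact hAS hg
        · exact hsymm _ (hAS hg)
        · exact hsS
      · intro x hx
        rcases Finset.mem_union.1 hx with hx | hx
        · exact Finset.mem_union_left _ (h4 x hx)
        · exact Finset.mem_union_right _ (tri_symm hp.1 x hx)
      · refine KempeHomJ.union h4 (tri_symm hp.1) ?_ h5 (hp.kempeHomJ hJ (hAi g hg))
        intro x hx
        obtain ⟨hxB, hxT⟩ := Finset.mem_inter.1 hx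
        rcases mem_tri.1 hxT with rfl | rfl | rfl
        · exact absurd hxB hgB
        · exact absurd hxB hgB'
        · exact hsJ
      · intro x hx
        rcases Finset.mem_union.1 hx with hx | hx
        · rcases h6 x hx with h7 | h7 | h7
          · exact Or.inl h7
          · exact Or.inr (Or.inl (Finset.mem_sdiff.1 h7).1)
          · exact Or.inr (Or.inr h7)
        · rcases mem_tri.1 hx with rfl | rfl | rfl
          · exact Or.inr (Or.inl hg)
          · exact Or.inr (Or.inl (hAs _ hg))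
          · exact Or.inl hsJ

end dec

/-- **The upper bound.** -/
theorem kempe_index {X : Type v} [MulAction Γ X] [MeasurableSpace X] [StandardBorelSpace X]
    [Nonempty X] (hmeas : ∀ γ : Γ, Measurable fun x : X => γ • x)
    (hfree : ∀ (γ : Γ) (x : X), γ • x = x → γ = 1) {S : Finset Γ} (hsymm : ∀ s ∈ S, s⁻¹ ∈ S)
    (h1 : (1 : Γ) ∉ S) (hgen : Subgroup.closure (S : Set Γ) = ⊤)
    (hodd : ∀ g ∈ S, ¬ Odd (orderOf g)) (hasi : BorelAsiLe (schreierGraph S X) 1)
    (J : Finset Γ) (hJ : ∀ t ∈ J, t * t = 1) (𝓣 : Finset (Finset Γ))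
    (hT : ∀ T ∈ 𝓣, T ⊆ S ∧ KempeSet J T)
    (hm : ∀ T ∈ 𝓣, ∀ T' ∈ 𝓣, T ≠ T' → ∀ t ∈ T, t ∈ T' → t ∈ J)
    (hcov : ∀ g ∈ S, ¬ IsOfFinOrder g → (∃ T ∈ 𝓣, g ∈ T) ∨
      ∃ s ∈ S, s ∈ J ∧ KempePartner g s) :
    borelChromaticIndex (schreierGraph S X) = (S.card : ℕ∞) := by
  classical
  have hcount : Countable Γ := countable_of_gen hsymm hgen
  have hB₀s : ∀ t ∈ 𝓣.biUnion id, t⁻¹ ∈ 𝓣.biUnion id := by
    intro t ht
    obtain ⟨T, hTT, htT⟩ := Finset.mem_biUnion.1 ht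
    exact Finset.mem_biUnion.2 ⟨T, hTT, (hT T hTT).2.1 t htT⟩
  have hB₀S : 𝓣.biUnion id ⊆ S := by
    intro t ht
    obtain ⟨T, hTT, htT⟩ := Finset.mem_biUnion.1 ht
    exact (hT T hTT).1 htT
  have hB₀h : KempeHomJ J (𝓣.biUnion id) := by
    refine KempeHomJ.biUnion 𝓣 (fun T h => (hT T h).2.1) (fun T h => (hT T h).2.hom) ?_
    intro T h T' h' hne t ht
    obtain ⟨h2, h3⟩ := Finset.mem_inter.1 ht
    exact hm T h T' h' hne t h2 h3
  obtain ⟨B, h2, h3, h4, h5, h6, -⟩ := exists_extension hJ hsymm hB₀s hB₀S hB₀h _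
    (S.filter fun g => ¬ IsOfFinOrder g ∧ g ∉ 𝓣.biUnion id) rfl
    (by
      intro g hg
      obtain ⟨hgS, hgi, hgB⟩ := Finset.mem_filter.1 hg
      refine Finset.mem_filter.2 ⟨hsymm g hgS, fun h => hgi (isOfFinOrder_inv_iff.1 h),
        fun h => hgB ?_⟩
      simpa using hB₀s _ h)
    (Finset.filter_subset _ _)
    (fun g hg => (Finset.mem_filter.1 hg).2.1)
    (fun g hg => (Finset.mem_filter.1 hg).2.2)
    (by
      intro g hg
      obtain ⟨hgS, hgi, hgB⟩ := Finset.mem_filter.1 hg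
      rcases hcov g hgS hgi with ⟨T, hTT, hgT⟩ | h
      · exact absurd (Finset.mem_biUnion.2 ⟨T, hTT, hgT⟩) hgB
      · exact h)
  have hBC1 : BC X B := BC_of_kempeHom hmeas hfree h4 hsymm h5 h1 hasi (h6.kempeHom h5)
  have hBC2 : BC X (S \ B) := by
    refine MP1822V.upper_bound hsymm hgen ?_ ?_ hmeas hfree hasi ?_
    · intro g hg
      rw [Finset.mem_sdiff] at hg ⊢
      refine ⟨hsymm g hg.1, fun h => hg.2 ?_⟩
      have := h5 _ h
      rwa [inv_inv] at this
    · intro g hg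
      exact hodd g (Finset.mem_sdiff.1 hg).1
    · intro g hg hgo
      obtain ⟨hgS, hgB⟩ := Finset.mem_sdiff.1 hg
      exfalso
      by_cases h : g ∈ 𝓣.biUnion id
      · exact hgB (h2 h)
      · exact hgB (h3 (Finset.mem_filter.2 ⟨hgS, hgo, h⟩))
  have hBC := BC_union hBC1 hBC2 Finset.disjoint_sdiff h5
  rw [Finset.union_sdiff_of_subset h4] at hBC
  refine le_antisymm ?_ (card_le_borelChromaticIndex hsymm h1 hfree)
  obtain ⟨col, c1, c2, c3, c4⟩ := hBC
  exact borelChromaticIndex_le hsymm hmeas hfree col (fun γ hγ δ => c1 γ hγ δ) c2 c3 c4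

end Pool.Agent.MP1822K
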