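import Pool.Agent.Lib.MP_1822da_lc.KC.Prin

/-!
# Kempe equivalence: chains of colourings and the union of two sets of generators
-/

namespace Pool.Agent.MP1822K

open Set MeasureTheory Pointwise
open Pool.Agent.Lib.MP_1822da_lc Pool.Agent.MP1822T Pool.Agent.MP1822C

universe u v

variable {Γ : Type u} [Group Γ]

/-- the two colourings agree on the edges of type `T` -/
def Agree (T : Finset Γ) (c c' : Γ → Γ → Γ) : Prop := ∀ γ ∈ T, ∀ x, c γ x = c' γ x

lemma Agree.refl (T : Finset Γ) (c : Γ → Γ → Γ) : Agree T c c := fun _ _ _ => rfl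

lemma Agree.symm {T : Finset Γ} {c c' : Γ → Γ → Γ} (h : Agree T c c') : Agree T c' c :=
  fun γ hγ x => (h γ hγ x).symm

lemma Agree.trans {T : Finset Γ} {c c' c'' : Γ → Γ → Γ} (h : Agree T c c')
    (h' : Agree T c' c'') : Agree T c c'' := fun γ hγ x => (h γ hγ x).trans (h' γ hγ x)

lemma IsCol.congr {T : Finset Γ} (hs : ∀ g ∈ T, g⁻¹ ∈ T) {c c' : Γ → Γ → Γ} (h : Agree T c c')
    (hc : IsCol T c) : IsCol T c' := by
  refine ⟨fun γ hγ x => ?_, fun γ hγ x => ?_, fun x γ hγ δ hδ he => ?_⟩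
  · rw [← h γ hγ]; exact hc.mem γ hγ x
  · rw [← h γ hγ, ← h γ⁻¹ (hs γ hγ)]; exact hc.symm γ hγ x
  · rw [← h γ hγ, ← h δ hδ] at he; exact hc.inj x γ hγ δ hδ he

lemma DStep.congr {T : Finset Γ} {c c' d d' : Γ → Γ → Γ} (h : Agree T c d) (h' : Agree T c' d')
    {x y : Γ} (hxy : DStep T d d' x y) : DStep T c c' x y := by
  obtain ⟨γ, hγ, h1, h2⟩ := hxy
  refine ⟨γ, hγ, h1, ?_⟩
  rw [h γ hγ, h' γ hγ]
  exact h2

lemma Near.congr {T : Finset Γ} (hs : ∀ g ∈ T, g⁻¹ ∈ T) {R : ℕ} {c c' d d' : Γ → Γ → Γ}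
    (h : Agree T c d) (h' : Agree T c' d') (hn : Near T R c c') : Near T R d d' := by
  refine ⟨hn.1.congr hs h, hn.2.1.congr hs h', fun x y hxy => hn.2.2 x y ?_⟩
  induction hxy with
  | refl => exact Relation.ReflTransGen.refl
  | tail _ hbc ih => exact ih.tail (hbc.congr h h')

lemma pow_subset_pow {F : Set Γ} (h1 : (1 : Γ) ∈ F) {n m : ℕ} (h : n ≤ m) : F ^ n ⊆ F ^ m := by
  obtain ⟨k, rfl⟩ := Nat.exists_eq_add_of_le h
  intro x hx
  rw [pow_add]
  have h2 : (1 : Γ) ∈ F ^ k := by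
    clear hx h
    induction k with
    | zero => simp
    | succ k ih => rw [pow_succ]; simpa using Set.mul_mem_mul ih h1
  simpa using Set.mul_mem_mul hx h2

lemma Near.mono {T : Finset Γ} {R R' : ℕ} (hR : R ≤ R') {c c' : Γ → Γ → Γ}
    (h : Near T R c c') : Near T R' c c' := by
  refine ⟨h.1, h.2.1, fun x y hxy => ?_⟩
  obtain ⟨η, h1, h2⟩ := h.2.2 x y hxy
  exact ⟨η, pow_subset_pow (mem_insert _ _) hR h1, h2⟩

lemma Near.same {T : Finset Γ} (R : ℕ) {c : Γ → Γ → Γ} (hc : IsCol T c) : Near T R c c := by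
  refine ⟨hc, hc, fun x y hxy => ⟨1, pow_subset_pow (mem_insert _ _) (Nat.zero_le R) ?_, ?_⟩⟩
  · simp
  · induction hxy with
    | refl => rw [one_mul]
    | tail _ hbc ih =>
      obtain ⟨γ, hγ, h1, h2⟩ := hbc
      exact absurd rfl h2

/-- `c'` is reached from `c` by `n` steps of diameter at most `R` -/
inductive Steps (T : Finset Γ) (R : ℕ) : ℕ → (Γ → Γ → Γ) → (Γ → Γ → Γ) → Prop
  | zero {c c'} : Agree T c c' → Steps T R 0 c c'
  | succ {n c c' c''} : Near T R c c' → Steps T R n c' c'' → Steps T R (n + 1) c c''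

lemma Steps.mono {T : Finset Γ} {R R' : ℕ} (hR : R ≤ R') {n : ℕ} {c c' : Γ → Γ → Γ}
    (h : Steps T R n c c') : Steps T R' n c c' := by
  induction h with
  | zero h => exact .zero h
  | succ h1 _ ih => exact .succ (h1.mono hR) ih

lemma Steps.congr_left {T : Finset Γ} (hs : ∀ g ∈ T, g⁻¹ ∈ T) {R n : ℕ} {c d c' : Γ → Γ → Γ}
    (ha : Agree T c d) (h : Steps T R n c c') : Steps T R n d c' := by
  cases h with
  | zero h => exact .zero (ha.symm.trans h)
  | succ h1 h2 => exact .succ (h1.congr hs ha (Agree.refl _ _)) h2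

lemma Steps.trans {T : Finset Γ} (hs : ∀ g ∈ T, g⁻¹ ∈ T) {R n m : ℕ} {c c' c'' : Γ → Γ → Γ}
    (h : Steps T R n c c') (h' : Steps T R m c' c'') : Steps T R (n + m) c c'' := by
  induction h with
  | zero h => rw [Nat.zero_add]; exact h'.congr_left hs h.symm
  | @succ n c c' _ h1 _ ih =>
    have := Steps.succ h1 (ih h')
    have e : n + m + 1 = n + 1 + m := by omega
    rwa [e] at this

lemma Steps.exists_fun {T : Finset Γ} {R n : ℕ} {c c' : Γ → Γ → Γ}
    (h : Steps T R n c c') : ∃ f : ℕ → Γ → Γ → Γ, f 0 = c ∧ Agree T (f n) c' ∧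
      ∀ i < n, Near T R (f i) (f (i + 1)) := by
  induction h with
  | @zero c c' h => exact ⟨fun _ => c, rfl, h, fun i hi => absurd hi (Nat.not_lt_zero _)⟩
  | @succ n c c' _ h1 _ ih =>
    obtain ⟨f, h2, h3, h4⟩ := ih
    refine ⟨fun i => Nat.casesOn i c f, rfl, h3, ?_⟩
    intro i hi
    cases i with
    | zero => show Near T R c (f 0); rwa [h2]
    | succ i => exact h4 i (by omega)

lemma Steps.reach {T : Finset Γ} (hs : ∀ g ∈ T, g⁻¹ ∈ T) {R n K : ℕ} {c c' : Γ → Γ → Γ}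
    (h : Steps T R n c c') (hc' : IsCol T c') (hn : n ≤ K) (hR : R ≤ K) : Reach T K c c' := by
  obtain ⟨f, h1, h2, h3⟩ := h.exists_fun
  refine ⟨fun i => f (min i n), ?_, ?_, ?_⟩
  · intro γ _ x
    simp [h1]
  · intro γ hγ x
    show f (min K n) γ x = c' γ x
    rw [min_eq_right hn]
    exact h2 γ hγ x
  · intro i _
    show Near T K (f (min i n)) (f (min (i + 1) n))
    rcases Nat.lt_or_ge i n with h | h
    · rw [min_eq_left h.le, min_eq_left h]
      exact (h3 i h).mono hR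
    · rw [min_eq_right h, min_eq_right (by omega)]
      exact Near.same K (hc'.congr hs h2.symm)

/-- `T` is Kempe homogeneous, by a colouring whose classes of the elements of `J` are the edges
of this type. -/
def KempeHomJ (J T : Finset Γ) : Prop :=
  ∃ (c : Γ → Γ → Γ) (n R : ℕ), IsCol T c ∧ (∀ s ∈ T, s ∈ J → ∀ x, c s x = s) ∧
    ∀ δ : Γ, Steps T R n c (fun γ x => c γ (x * δ))

lemma IsCol.translate {T : Finset Γ} {c : Γ → Γ → Γ} (h : IsCol T c) (δ : Γ) :
    IsCol T (fun γ x => c γ (x * δ)) := by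
  refine ⟨fun γ hγ x => h.mem γ hγ _, fun γ hγ x => ?_, fun x γ hγ γ' hγ' he => ?_⟩
  · show c γ⁻¹ (γ * x * δ) = c γ (x * δ)
    rw [mul_assoc]
    exact h.symm γ hγ _
  · exact h.inj _ γ hγ γ' hγ' he

lemma KempeHomJ.kempeHom {J T : Finset Γ} (hs : ∀ g ∈ T, g⁻¹ ∈ T) (h : KempeHomJ J T) :
    KempeHom T := by
  obtain ⟨c, n, R, hc, -, h⟩ := h
  exact ⟨c, max n R, hc, fun δ => (h δ).reach hs (hc.translate δ) (le_max_left _ _)
    (le_max_right _ _)⟩

section mix

variable [DecidableEq Γ]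

/-- `a` on `A`, `b` elsewhere -/
def mix (A : Finset Γ) (a b : Γ → Γ → Γ) : Γ → Γ → Γ := fun γ x => if γ ∈ A then a γ x else b γ x

lemma IsCol.mix {A B : Finset Γ} (hd : Disjoint A B) (hA : ∀ g ∈ A, g⁻¹ ∈ A)
    {a b : Γ → Γ → Γ} (ha : IsCol A a) (hb : IsCol B b) : IsCol (A ∪ B) (mix A a b) := by
  have hno : ∀ γ ∈ B, γ ∉ A := fun γ h h' => Finset.disjoint_left.1 hd h' h
  have hB : ∀ γ ∈ A ∪ B, γ ∉ A → γ ∈ B := fun γ h h' => (Finset.mem_union.1 h).resolve_left h'
  have hinv : ∀ γ, γ ∉ A → γ⁻¹ ∉ A := fun γ h h' => h (by simpa using hA _ h')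
  refine ⟨fun γ hγ x => ?_, fun γ hγ x => ?_, fun x γ hγ δ hδ he => ?_⟩
  · by_cases h : γ ∈ A
    · simp only [MP1822K.mix, h, if_true]; exact Finset.mem_union_left _ (ha.mem γ h x)
    · simp only [MP1822K.mix, h, if_false]
      exact Finset.mem_union_right _ (hb.mem γ (hB γ hγ h) x)
  · by_cases h : γ ∈ A
    · simp only [MP1822K.mix, h, hA γ h, if_true]; exact ha.symm γ h x
    · simp only [MP1822K.mix, h, hinv γ h, if_false]; exact hb.symm γ (hB γ hγ h) x
  · by_cases h : γ ∈ A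
    · by_cases h' : δ ∈ A
      · simp only [MP1822K.mix, h, h', if_true] at he
        exact ha.inj x γ h δ h' he
      · simp only [MP1822K.mix, h, h', if_true, if_false] at he
        have := ha.mem γ h x
        rw [he] at this
        exact absurd this (hno _ (hb.mem δ (hB δ hδ h') x))
    · by_cases h' : δ ∈ A
      · simp only [MP1822K.mix, h, h', if_true, if_false] at he
        have := ha.mem δ h' x
        rw [← he] at this
        exact absurd this (hno _ (hb.mem γ (hB γ hγ h) x))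
      · simp only [MP1822K.mix, h, h', if_false] at he
        exact hb.inj x γ (hB γ hγ h) δ (hB δ hδ h') he

lemma Near.mix {A B : Finset Γ} (hd : Disjoint A B) (hA : ∀ g ∈ A, g⁻¹ ∈ A) {R : ℕ}
    {a a' b : Γ → Γ → Γ} (h : Near A R a a') (hb : IsCol B b) :
    Near (A ∪ B) R (mix A a b) (mix A a' b) := by
  refine ⟨h.1.mix hd hA hb, h.2.1.mix hd hA hb, fun x y hxy => ?_⟩
  have h2 : Relation.ReflTransGen (DStep A a a') x y := by
    induction hxy with
    | refl => exact Relation.ReflTransGen.refl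
    | tail _ hbc ih =>
      obtain ⟨γ, hγ, h1, h2⟩ := hbc
      refine ih.tail ?_
      by_cases hg : γ ∈ A
      · refine ⟨γ, hg, h1, ?_⟩
        simpa only [MP1822K.mix, hg, if_true] using h2
      · simp only [MP1822K.mix, hg, if_false] at h2
        exact absurd rfl h2
  obtain ⟨η, h3, h4⟩ := h.2.2 x y h2
  refine ⟨η, Set.pow_subset_pow_left (insert_subset_insert ?_) h3, h4⟩
  exact_mod_cast Finset.subset_union_left

lemma Steps.mix {A B : Finset Γ} (hd : Disjoint A B) (hA : ∀ g ∈ A, g⁻¹ ∈ A) {R n : ℕ}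
    {a a' b : Γ → Γ → Γ} (h : Steps A R n a a') (hb : IsCol B b) :
    Steps (A ∪ B) R n (mix A a b) (mix A a' b) := by
  induction h with
  | zero h =>
    refine .zero fun γ _ x => ?_
    by_cases hg : γ ∈ A
    · simp only [MP1822K.mix, hg, if_true]; exact h γ hg x
    · simp only [MP1822K.mix, hg, if_false]
  | succ h1 _ ih => exact .succ (h1.mix hd hA hb) ih

lemma IsCol.sdiff {J T T' : Finset Γ} (hTT : T ∩ T' ⊆ J) {c : Γ → Γ → Γ} (hc : IsCol T' c)
    (hJ : ∀ s ∈ T', s ∈ J → ∀ x, c s x = s) : IsCol (T' \ T) c := by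
  refine ⟨fun γ hγ x => ?_, fun γ hγ x => hc.symm γ (Finset.mem_sdiff.1 hγ).1 x,
    fun x γ hγ δ hδ he => hc.inj x γ (Finset.mem_sdiff.1 hγ).1 δ (Finset.mem_sdiff.1 hδ).1 he⟩
  obtain ⟨h1, h2⟩ := Finset.mem_sdiff.1 hγ
  have h3 := hc.mem γ h1 x
  refine Finset.mem_sdiff.2 ⟨h3, fun h4 => h2 ?_⟩
  have h5 : c γ x ∈ J := hTT (Finset.mem_inter.2 ⟨h4, h3⟩)
  have h6 := hJ _ h3 h5 x
  rw [hc.inj x _ h3 γ h1 h6] at h4
  exact h4

/-- **Union of two sets of generators**, which share only elements of `J`. -/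
theorem KempeHomJ.union {J T T' : Finset Γ} (hT : ∀ g ∈ T, g⁻¹ ∈ T) (hT' : ∀ g ∈ T', g⁻¹ ∈ T')
    (hTT : T ∩ T' ⊆ J) (h : KempeHomJ J T) (h' : KempeHomJ J T') : KempeHomJ J (T ∪ T') := by
  obtain ⟨c, n, R, hc, hcJ, hs⟩ := h
  obtain ⟨c', n', R', hc', hcJ', hs'⟩ := h'
  have hTT' : T' ∩ T ⊆ J := by rwa [Finset.inter_comm]
  have hB : IsCol (T' \ T) c' := hc'.sdiff hTT hcJ'
  have hB' : ∀ δ, IsCol (T \ T') (fun γ x => c γ (x * δ)) := fun δ =>
    (hc.translate δ).sdiff hTT' fun s hs1 hs2 x => hcJ s hs1 hs2 _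
  have hu : T ∪ T' \ T = T ∪ T' := Finset.union_sdiff_self_eq_union
  have hu' : T' ∪ T \ T' = T ∪ T' := by
    rw [Finset.union_sdiff_self_eq_union, Finset.union_comm]
  have hd : Disjoint T (T' \ T) := Finset.disjoint_sdiff
  have hd' : Disjoint T' (T \ T') := Finset.disjoint_sdiff
  have hsym : ∀ g ∈ T ∪ T', g⁻¹ ∈ T ∪ T' := by
    intro g hg
    rcases Finset.mem_union.1 hg with h | h
    · exact Finset.mem_union_left _ (hT g h)
    · exact Finset.mem_union_right _ (hT' g h)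
  refine ⟨mix T c c', n + n', max R R', ?_, ?_, fun δ => ?_⟩
  · have := hc.mix hd hT hB
    rwa [hu] at this
  · intro s hsT hsJ x
    by_cases h : s ∈ T
    · simp only [mix, h, if_true]; exact hcJ s h hsJ x
    · simp only [mix, h, if_false]
      exact hcJ' s ((Finset.mem_union.1 hsT).resolve_left h) hsJ x
  · have s1 := ((hs δ).mono (le_max_left R R')).mix hd hT hB
    have s2 := ((hs' δ).mono (le_max_right R R')).mix hd' hT' (hB' δ)
    rw [hu] at s1
    rw [hu'] at s2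
    refine (s1.trans hsym (s2.congr_left hsym ?_)).trans hsym (m := 0) (.zero ?_)
    · intro γ hγ x
      by_cases h : γ ∈ T
      · by_cases h' : γ ∈ T'
        · have hJ : γ ∈ J := hTT (Finset.mem_inter.2 ⟨h, h'⟩)
          simp only [mix, h, h', if_true]
          rw [hcJ' γ h' hJ, hcJ γ h hJ]
        · simp only [mix, h, h', if_true, if_false]
      · have h' := (Finset.mem_union.1 hγ).resolve_left h
        simp only [mix, h, h', if_true, if_false]
    · intro γ hγ x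
      by_cases h : γ ∈ T
      · by_cases h' : γ ∈ T'
        · have hJ : γ ∈ J := hTT (Finset.mem_inter.2 ⟨h, h'⟩)
          simp only [mix, h, h', if_true]
          rw [hcJ' γ h' hJ, hcJ γ h hJ]
        · simp only [mix, h, h', if_true, if_false]
      · have h' := (Finset.mem_union.1 hγ).resolve_left h
        simp only [mix, h, h', if_true, if_false]

end mix

end Pool.Agent.MP1822K
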