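import Pool.Agent.Lib.MP_1822da_lc.KC.Theta

/-!
# Kempe blocks with an involution
-/

namespace Pool.Agent.MP1822K

open Set MeasureTheory Pointwise
open Pool.Agent.Lib.MP_1822da_lc Pool.Agent.MP1822T Pool.Agent.MP1822C

universe u v

variable {Γ : Type u} [Group Γ]

/-- the homomorphism from `ℤˣ` with the value `σ` at `-1` -/
def unitHom {G : Type*} [Group G] (σ : G) (hσ : σ * σ = 1) : ℤˣ →* G where
  toFun u := if u = 1 then 1 else σ
  map_one' := by simp
  map_mul' a b := by
    rcases Int.units_eq_one_or a with rfl | rfl <;> rcases Int.units_eq_one_or b with rfl | rfl <;>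
      simp [hσ]

lemma unitHom_one {G : Type*} [Group G] (σ : G) (hσ : σ * σ = 1) : unitHom σ hσ 1 = 1 := map_one _

lemma unitHom_neg {G : Type*} [Group G] (σ : G) (hσ : σ * σ = 1) : unitHom σ hσ (-1) = σ := by
  show (if (-1 : ℤˣ) = 1 then 1 else σ) = σ
  rw [if_neg (by decide)]

section pair

variable [DecidableEq Γ]

/-- the set `{g, g⁻¹, s}` -/
def tri (g s : Γ) : Finset Γ := {g, g⁻¹, s}

variable {g s : Γ}

lemma mem_tri {x : Γ} : x ∈ tri g s ↔ x = g ∨ x = g⁻¹ ∨ x = s := by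
  simp [tri]

lemma tri_symm (hs : s * s = 1) : ∀ t ∈ tri g s, t⁻¹ ∈ tri g s := by
  intro t ht
  have hs' : s⁻¹ = s := inv_eq_of_mul_eq_one_right hs
  rcases mem_tri.1 ht with rfl | rfl | rfl
  · exact mem_tri.2 (Or.inr (Or.inl rfl))
  · exact mem_tri.2 (Or.inl (inv_inv _))
  · exact mem_tri.2 (Or.inr (Or.inr hs'))

/-- the element `g` -/
def tg (g s : Γ) : {x // x ∈ tri g s} := ⟨g, mem_tri.2 (Or.inl rfl)⟩

/-- the element `g⁻¹` -/
def ti (g s : Γ) : {x // x ∈ tri g s} := ⟨g⁻¹, mem_tri.2 (Or.inr (Or.inl rfl))⟩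

/-- the element `s` -/
def ts (g s : Γ) : {x // x ∈ tri g s} := ⟨s, mem_tri.2 (Or.inr (Or.inr rfl))⟩

/-- the action on the colours -/
def thetaP (χ : gp (tri g s) →* ℤˣ) : gp (tri g s) →* Equiv.Perm {x // x ∈ tri g s} :=
  (unitHom (Equiv.swap (tg g s) (ti g s)) (Equiv.swap_mul_self _ _)).comp χ

lemma thetaP_one {χ : gp (tri g s) →* ℤˣ} {x : gp (tri g s)} (h : χ x = 1) :
    thetaP χ x = 1 := by
  show unitHom (Equiv.swap (tg g s) (ti g s)) (Equiv.swap_mul_self _ _) (χ x) = 1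
  rw [h, unitHom_one]

lemma thetaP_neg {χ : gp (tri g s) →* ℤˣ} {x : gp (tri g s)} (h : χ x = -1) :
    thetaP χ x = Equiv.swap (tg g s) (ti g s) := by
  show unitHom (Equiv.swap (tg g s) (ti g s)) (Equiv.swap_mul_self _ _) (χ x) = _
  rw [h, unitHom_neg]

/-- the subgroup element `g` -/
def gg (g s : Γ) : gp (tri g s) := ⟨g, mem_gp (mem_tri.2 (Or.inl rfl))⟩

/-- the subgroup element `s` -/
def gs (g s : Γ) : gp (tri g s) := ⟨s, mem_gp (mem_tri.2 (Or.inr (Or.inr rfl)))⟩

variable (hs : s * s = 1) (hg : g ≠ g⁻¹) (hgs : s ≠ g) (hgs' : s ≠ g⁻¹)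

include hgs hgs' in
lemma thetaP_s (χ : gp (tri g s) →* ℤˣ) (x : gp (tri g s)) :
    thetaP χ x (ts g s) = ts g s := by
  rcases Int.units_eq_one_or (χ x) with h | h
  · rw [thetaP_one h]
    rfl
  · rw [thetaP_neg h]
    refine Equiv.swap_apply_of_ne_of_ne ?_ ?_
    · exact fun h => hgs (congrArg Subtype.val h)
    · exact fun h => hgs' (congrArg Subtype.val h)

/-- the edge of colour `g` -/
lemma flip_g (χ : gp (tri g s) →* ℤˣ) (x : gp (tri g s)) :
    flip (thetaP χ) (tg g s) x = (if χ x = 1 then gg g s else (gg g s)⁻¹) * x := by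
  apply Subtype.ext
  show ((thetaP χ x (tg g s) : {x // x ∈ tri g s}) : Γ) * x = _
  split_ifs with h
  · rw [thetaP_one h]
    rfl
  · have h' : χ x = -1 := (Int.units_eq_one_or _).resolve_left h
    rw [thetaP_neg h', Equiv.swap_apply_left]
    rfl

/-- the edge of colour `g⁻¹` -/
lemma flip_i (χ : gp (tri g s) →* ℤˣ) (x : gp (tri g s)) :
    flip (thetaP χ) (ti g s) x = (if χ x = 1 then (gg g s)⁻¹ else gg g s) * x := by
  apply Subtype.ext
  show ((thetaP χ x (ti g s) : {x // x ∈ tri g s}) : Γ) * x = _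
  split_ifs with h
  · rw [thetaP_one h]
    rfl
  · have h' : χ x = -1 := (Int.units_eq_one_or _).resolve_left h
    rw [thetaP_neg h', Equiv.swap_apply_right]
    rfl

include hgs hgs' in
/-- the edge of colour `s` -/
lemma flip_s (χ : gp (tri g s) →* ℤˣ) (x : gp (tri g s)) :
    flip (thetaP χ) (ts g s) x = gs g s * x := by
  apply Subtype.ext
  show ((thetaP χ x (ts g s) : {x // x ∈ tri g s}) : Γ) * x = _
  rw [thetaP_s hgs hgs']
  rfl

/-- `g` and `s` are Kempe partners: `s` is an involution and either `[g, s]` has finite order and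
some homomorphism `⟨g, s⟩ → {1, -1}` has the values `-1` at `g` and `1` at `s`, or `g s` has finite
order and some homomorphism has the value `-1` at `g` and `s`. -/
def KPart (g s : Γ) : Prop :=
  s * s = 1 ∧ s ≠ 1 ∧ ∃ χ : Subgroup.closure ({g, s} : Set Γ) →* ℤˣ,
    (∀ x : Subgroup.closure ({g, s} : Set Γ), (x : Γ) = g → χ x = -1) ∧
    (((∀ x : Subgroup.closure ({g, s} : Set Γ), (x : Γ) = s → χ x = 1) ∧
      IsOfFinOrder (g * s * g⁻¹ * s⁻¹)) ∨
    ((∀ x : Subgroup.closure ({g, s} : Set Γ), (x : Γ) = s → χ x = -1) ∧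
      IsOfFinOrder (g * s)))

/-- Words in the two flips, even case. -/
lemma exch_even {H : Type*} [Group H] {χ : H →* ℤˣ} {s u : H} (hs : s * s = 1) (hu : χ u = -1)
    (hχs : χ s = 1) {m : ℕ} (hm : (s * u⁻¹ * s * u) ^ m = 1) (F : H → H)
    (hF : ∀ y, F y = s * ((if χ y = 1 then u else u⁻¹) * y)) (y : H) : F^[2 * m] y = y := by
  have hne : (-1 : ℤˣ) ≠ 1 := by decide
  have h2 : ∀ y, F (F y) = (if χ y = 1 then s * u⁻¹ * s * u else s * u * s * u⁻¹) * y := by
    intro y
    rw [hF (F y), hF y]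
    rcases Int.units_eq_one_or (χ y) with h | h
    · rw [h, if_pos rfl, if_pos rfl, map_mul, map_mul, hχs, hu, h]
      rw [one_mul, mul_one, if_neg hne]
      group
    · rw [h, if_neg hne, if_neg hne, map_mul, map_mul, hχs, map_inv, hu, h]
      rw [one_mul, if_pos (by decide)]
      group
  have hχ2 : ∀ y, χ (F (F y)) = χ y := by
    intro y
    rw [h2 y]
    split_ifs
    · rw [map_mul, map_mul, map_mul, map_mul, map_inv, hχs, hu]
      simp
    · rw [map_mul, map_mul, map_mul, map_mul, map_inv, hχs, hu]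
      simp
  have hm' : (s * u * s * u⁻¹) ^ m = 1 := by
    have hs' : s⁻¹ = s := inv_eq_of_mul_eq_one_right hs
    have e : s * u * s * u⁻¹ = u * (s * u⁻¹ * s * u)⁻¹ * u⁻¹ := by
      rw [mul_inv_rev, mul_inv_rev, mul_inv_rev, inv_inv, hs']
      group
    rw [e, conj_pow, inv_pow, hm]
    group
  have key : ∀ i, F^[2 * i] y = (if χ y = 1 then s * u⁻¹ * s * u else s * u * s * u⁻¹) ^ i * y ∧
      χ (F^[2 * i] y) = χ y := by
    intro i
    induction i with
    | zero => exact ⟨by simp, by simp⟩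
    | succ i ih =>
      have e : 2 * (i + 1) = 2 * i + 1 + 1 := by ring
      rw [e, Function.iterate_succ_apply', Function.iterate_succ_apply']
      refine ⟨?_, by rw [hχ2, ih.2]⟩
      rw [h2, ih.2, ih.1, ← mul_assoc, ← pow_succ']
  rw [(key m).1]
  split_ifs
  · rw [hm, one_mul]
  · rw [hm', one_mul]

/-- Words in the two flips, odd case. -/
lemma exch_odd {H : Type*} [Group H] {χ : H →* ℤˣ} {s u : H} (hs : s * s = 1) (hu : χ u = -1)
    (hχs : χ s = -1) {m : ℕ} (hm : (s * u) ^ m = 1) (F : H → H)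
    (hF : ∀ y, F y = s * ((if χ y = 1 then u else u⁻¹) * y)) (y : H) : F^[m] y = y := by
  have hχ : ∀ y, χ (F y) = χ y := by
    intro y
    rw [hF y]
    split_ifs
    · rw [map_mul, map_mul, hχs, hu]
      simp
    · rw [map_mul, map_mul, map_inv, hχs, hu]
      simp
  have hm' : (s * u⁻¹) ^ m = 1 := by
    have hs' : s⁻¹ = s := inv_eq_of_mul_eq_one_right hs
    have e : s * u⁻¹ = u * (s * u)⁻¹ * u⁻¹ := by
      rw [mul_inv_rev, hs']
      group
    rw [e, conj_pow, inv_pow, hm]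
    group
  have key : ∀ i, F^[i] y = (if χ y = 1 then s * u else s * u⁻¹) ^ i * y ∧
      χ (F^[i] y) = χ y := by
    intro i
    induction i with
    | zero => exact ⟨by simp, by simp⟩
    | succ i ih =>
      rw [Function.iterate_succ_apply']
      refine ⟨?_, by rw [hχ, ih.2]⟩
      rw [hF, ih.2, ih.1]
      split_ifs
      · rw [pow_succ']
        group
      · rw [pow_succ']
        group
  rw [(key m).1]
  split_ifs
  · rw [hm, one_mul]
  · rw [hm', one_mul]

lemma Exch.symm {J T : Finset Γ} {θ : gp T →* Equiv.Perm {x // x ∈ T}} (hθ : IsBlock J T θ)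
    {u v : {x // x ∈ T}} (h : Exch θ u v) : Exch θ v u := by
  obtain ⟨m, hm, h1⟩ := h
  refine ⟨m, hm, fun y => ?_⟩
  have key : ∀ i z, (fun y => flip θ u (flip θ v y))^[i] (flip θ u z) =
      flip θ u ((fun y => flip θ v (flip θ u y))^[i] z) := by
    intro i
    induction i with
    | zero => intro z; rfl
    | succ i ih =>
      intro z
      rw [Function.iterate_succ_apply, Function.iterate_succ_apply]
      exact ih (flip θ v (flip θ u z))
  have h2 := key m (flip θ u y)
  rwa [flip_flip θ hθ, h1, flip_flip θ hθ] at h2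

lemma gp_tri (g s : Γ) : gp (tri g s) = Subgroup.closure ({g, s} : Set Γ) := by
  apply le_antisymm
  · rw [Subgroup.closure_le]
    intro x hx
    rcases mem_tri.1 (Finset.mem_coe.1 hx) with rfl | rfl | rfl
    · exact Subgroup.subset_closure (Or.inl rfl)
    · exact Subgroup.inv_mem _ (Subgroup.subset_closure (Or.inl rfl))
    · exact Subgroup.subset_closure (Or.inr rfl)
  · rw [Subgroup.closure_le]
    rintro x (rfl | rfl)
    · exact mem_gp (mem_tri.2 (Or.inl rfl))
    · exact mem_gp (mem_tri.2 (Or.inr (Or.inr rfl)))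

/-- **Kempe partners give a block.** -/
theorem KPart.isBlock {J : Finset Γ} (hJ : ∀ t ∈ J, t * t = 1) (hg : ¬ IsOfFinOrder g)
    (h : KPart g s) : ∃ θ, IsBlock J (tri g s) θ := by
  obtain ⟨hs, -, χ₀, hχg, hχs⟩ := h
  have hs' : s⁻¹ = s := inv_eq_of_mul_eq_one_right hs
  have hsfin : IsOfFinOrder s := isOfFinOrder_iff_pow_eq_one.2 ⟨2, by norm_num, by rw [pow_two, hs]⟩
  have hgg : g * g ≠ 1 := fun h => hg (isOfFinOrder_iff_pow_eq_one.2
    ⟨2, by norm_num, by rw [pow_two, h]⟩)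
  have hgi : g ≠ g⁻¹ := fun h => hgg (by
    nth_rewrite 2 [h]
    exact mul_inv_cancel g)
  have hgs : s ≠ g := fun h => hg (h ▸ hsfin)
  have hgs' : s ≠ g⁻¹ := fun h => hg (by
    rw [← isOfFinOrder_inv_iff, ← h]
    exact hsfin)
  let e : gp (tri g s) ≃* Subgroup.closure ({g, s} : Set Γ) := MulEquiv.subgroupCongr (gp_tri g s)
  let χ : gp (tri g s) →* ℤˣ := χ₀.comp e.toMonoidHom
  have hχ1 : χ (gg g s) = -1 := hχg _ rfl
  have hθ : IsBlock J (tri g s) (thetaP χ) → ∃ θ, IsBlock J (tri g s) θ := fun h => ⟨_, h⟩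
  have hS : gs g s * gs g s = 1 := Subtype.ext hs
  have hB0 : (∀ t ∈ tri g s, t⁻¹ ∈ tri g s) ∧
      (∀ t (ht : t ∈ tri g s), ((thetaP χ ⟨t, mem_gp ht⟩ ⟨t, ht⟩ : {x // x ∈ tri g s}) : Γ) = t⁻¹) ∧
      (∀ t (ht : t ∈ tri g s), t ∈ J → ∀ x, thetaP χ x ⟨t, ht⟩ = ⟨t, ht⟩) := by
    refine ⟨tri_symm hs, ?_, ?_⟩
    · intro t ht
      rcases mem_tri.1 ht with h | h | h
      · subst h
        have : thetaP χ ⟨t, mem_gp ht⟩ = _ := thetaP_neg hχ1
        rw [this]
        show ((Equiv.swap (tg t s) (ti t s) (tg t s) : {x // x ∈ tri t s}) : Γ) = t⁻¹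
        rw [Equiv.swap_apply_left]
        rfl
      · subst h
        have h2 : χ ⟨g⁻¹, mem_gp ht⟩ = -1 := by
          have : (⟨g⁻¹, mem_gp ht⟩ : gp (tri g s)) = (gg g s)⁻¹ := rfl
          rw [this, map_inv, hχ1]
          rfl
        rw [thetaP_neg h2]
        show ((Equiv.swap (tg g s) (ti g s) (ti g s) : {x // x ∈ tri g s}) : Γ) = g⁻¹⁻¹
        rw [Equiv.swap_apply_right, inv_inv]
        rfl
      · subst h
        show ((thetaP χ ⟨t, mem_gp ht⟩ (ts g t) : {x // x ∈ tri g t}) : Γ) = t⁻¹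
        rw [thetaP_s hgs hgs', hs']
        rfl
    · intro t ht htJ x
      have h2 := hJ t htJ
      rcases mem_tri.1 ht with h | h | h
      · exact absurd (h ▸ h2) hgg
      · subst h
        have h3 : g * g = 1 := by
          rw [← mul_inv_rev] at h2
          exact inv_eq_one.1 h2
        exact absurd h3 hgg
      · subst h
        exact thetaP_s hgs hgs' χ x
  obtain ⟨hsy, hinv, hfix⟩ := hB0
  -- the exchanges
  have hflip : ∀ (u : gp (tri g s)) (U : {x // x ∈ tri g s}), χ u = -1 →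
      (∀ x, flip (thetaP χ) U x = (if χ x = 1 then u else u⁻¹) * x) →
      ((χ (gs g s) = 1 ∧ ∃ m, 0 < m ∧ (gs g s * u⁻¹ * gs g s * u) ^ m = 1) ∨
        (χ (gs g s) = -1 ∧ ∃ m, 0 < m ∧ (gs g s * u) ^ m = 1)) →
      Exch (thetaP χ) U (ts g s) := by
    intro u U hu hU h
    have hF : ∀ y, (fun y => flip (thetaP χ) (ts g s) (flip (thetaP χ) U y)) y =
        gs g s * ((if χ y = 1 then u else u⁻¹) * y) := by
      intro y
      show flip (thetaP χ) (ts g s) (flip (thetaP χ) U y) = _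
      rw [flip_s hgs hgs', hU]
    rcases h with ⟨h1, m, hm, h2⟩ | ⟨h1, m, hm, h2⟩
    · exact ⟨2 * m, by omega, fun y => exch_even hS hu h1 h2 _ hF y⟩
    · exact ⟨m, hm, fun y => exch_odd hS hu h1 h2 _ hF y⟩
  -- finite orders in the subgroup
  have hsub : ∀ y : gp (tri g s), IsOfFinOrder (y : Γ) → ∃ m, 0 < m ∧ y ^ m = 1 := by
    intro y hy
    obtain ⟨m, hm, h⟩ := isOfFinOrder_iff_pow_eq_one.1 hy
    exact ⟨m, hm, Subtype.ext (by simpa using h)⟩
  have hconj : ∀ a b : Γ, IsOfFinOrder a → IsOfFinOrder (b * a * b⁻¹) := by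
    intro a b ha
    obtain ⟨m, hm, h⟩ := isOfFinOrder_iff_pow_eq_one.1 ha
    exact isOfFinOrder_iff_pow_eq_one.2 ⟨m, hm, by rw [conj_pow, h]; group⟩
  have hE1 : Exch (thetaP χ) (tg g s) (ts g s) := by
    refine hflip (gg g s) (tg g s) hχ1 (flip_g χ) ?_
    rcases hχs with ⟨h1, h2⟩ | ⟨h1, h2⟩
    · refine Or.inl ⟨h1 _ rfl, hsub _ ?_⟩
      have h3 := hconj _ g⁻¹ h2
      have e : g⁻¹ * (g * s * g⁻¹ * s⁻¹) * g⁻¹⁻¹ = s * g⁻¹ * s * g := by
        rw [hs']
        group
      rw [e] at h3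
      exact h3
    · refine Or.inr ⟨h1 _ rfl, hsub _ ?_⟩
      have h3 := hconj _ s h2
      have e : s * (g * s) * s⁻¹ = s * g := by group
      rw [e] at h3
      exact h3
  have hE2 : Exch (thetaP χ) (ti g s) (ts g s) := by
    have hχi : χ (gg g s)⁻¹ = -1 := by
      rw [map_inv, hχ1]
      rfl
    refine hflip (gg g s)⁻¹ (ti g s) hχi (fun x => by rw [flip_i, inv_inv]) ?_
    rcases hχs with ⟨h1, h2⟩ | ⟨h1, h2⟩
    · refine Or.inl ⟨h1 _ rfl, hsub _ ?_⟩
      have h3 := h2.inv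
      have e : (g * s * g⁻¹ * s⁻¹)⁻¹ = s * g⁻¹⁻¹ * s * g⁻¹ := by
        rw [mul_inv_rev, mul_inv_rev, mul_inv_rev, inv_inv, hs']
        group
      rw [e] at h3
      exact h3
    · refine Or.inr ⟨h1 _ rfl, hsub _ ?_⟩
      have h3 := h2.inv
      have e : (g * s)⁻¹ = s * g⁻¹ := by rw [mul_inv_rev, hs']
      rw [e] at h3
      exact h3
  have hconn0 : IsBlock J (tri g s) (thetaP χ) := by
    have hsymE : ∀ {u v}, Exch (thetaP χ) u v → Exch (thetaP χ) v u := by
      intro u v huv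
      -- only the first three properties are needed for the symmetry
      obtain ⟨m, hm, h1⟩ := huv
      refine ⟨m, hm, fun y => ?_⟩
      have hff : ∀ (a : {x // x ∈ tri g s}) (x : gp (tri g s)),
          flip (thetaP χ) a (flip (thetaP χ) a x) = x := by
        intro a x
        have h1 : thetaP χ (flip (thetaP χ) a x) a =
            ⟨(thetaP χ x a : Γ)⁻¹, hsy _ (thetaP χ x a).2⟩ := by
          unfold flip
          rw [map_mul, Equiv.Perm.mul_apply]
          exact Subtype.ext (hinv _ (thetaP χ x a).2)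
        apply Subtype.ext
        show ((thetaP χ (flip (thetaP χ) a x) a : {x // x ∈ tri g s}) : Γ) *
          (flip (thetaP χ) a x : Γ) = x
        rw [h1]
        show (thetaP χ x a : Γ)⁻¹ * ((thetaP χ x a : Γ) * x) = x
        group
      have key : ∀ i z, (fun y => flip (thetaP χ) u (flip (thetaP χ) v y))^[i]
          (flip (thetaP χ) u z) =
          flip (thetaP χ) u ((fun y => flip (thetaP χ) v (flip (thetaP χ) u y))^[i] z) := by
        intro i
        induction i with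
        | zero => intro z; rfl
        | succ i ih =>
          intro z
          rw [Function.iterate_succ_apply, Function.iterate_succ_apply]
          exact ih (flip (thetaP χ) v (flip (thetaP χ) u z))
      have h2 := key m (flip (thetaP χ) u y)
      rwa [hff, h1, hff] at h2
    refine ⟨hsy, hinv, hfix, fun x t => ?_⟩
    rcases Int.units_eq_one_or (χ x) with h | h
    · rw [thetaP_one h]
      exact Relation.ReflTransGen.refl
    · rw [thetaP_neg h]
      by_cases h1 : t = tg g s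
      · rw [h1, Equiv.swap_apply_left]
        exact (Relation.ReflTransGen.single hE1).tail (hsymE hE2)
      · by_cases h2 : t = ti g s
        · rw [h2, Equiv.swap_apply_right]
          exact (Relation.ReflTransGen.single hE2).tail (hsymE hE1)
        · rw [Equiv.swap_apply_of_ne_of_ne h1 h2]
  exact ⟨_, hconn0⟩

end pair

end Pool.Agent.MP1822K
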