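import Pool.Agent.Lib.MP_1822da_lc.CP.Frame

/-!
# Kempe equivalence of a colouring with its translates: the principle
-/

namespace Pool.Agent.MP1822K

open Set MeasureTheory Pointwise
open Pool.Agent.Lib.MP_1822da_lc Pool.Agent.MP1822T Pool.Agent.MP1822C

universe u v

variable {Γ : Type u} [Group Γ]

/-- `c` is a proper colouring with colours in `T` of the edges `{x, γ x}`, `γ ∈ T`, of `Γ`;
`c γ x` is the colour of the edge `{x, γ x}`. -/
structure IsCol (T : Finset Γ) (c : Γ → Γ → Γ) : Prop where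
  mem : ∀ γ ∈ T, ∀ x, c γ x ∈ T
  symm : ∀ γ ∈ T, ∀ x, c γ⁻¹ (γ * x) = c γ x
  inj : ∀ x, ∀ γ ∈ T, ∀ δ ∈ T, c γ x = c δ x → γ = δ

/-- a step along an edge at which `c` and `c'` differ -/
def DStep (T : Finset Γ) (c c' : Γ → Γ → Γ) (x y : Γ) : Prop :=
  ∃ γ ∈ T, γ * x = y ∧ c γ x ≠ c' γ x

/-- `c` and `c'` are proper colourings, and the components of the graph formed by the edges at
which they differ have diameter at most `R`. -/
def Near (T : Finset Γ) (R : ℕ) (c c' : Γ → Γ → Γ) : Prop :=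
  IsCol T c ∧ IsCol T c' ∧ ∀ x y, Relation.ReflTransGen (DStep T c c') x y →
    ∃ η ∈ (insert 1 (T : Set Γ)) ^ R, y = η * x

/-- `c'` is reached from `c` in `R` steps -/
def Reach (T : Finset Γ) (R : ℕ) (c c' : Γ → Γ → Γ) : Prop :=
  ∃ f : ℕ → Γ → Γ → Γ, (∀ γ ∈ T, ∀ x, f 0 γ x = c γ x) ∧ (∀ γ ∈ T, ∀ x, f R γ x = c' γ x) ∧
    ∀ i < R, Near T R (f i) (f (i + 1))

/-- `T` is Kempe homogeneous: some colouring is equivalent to all its right translates. -/
def KempeHom (T : Finset Γ) : Prop :=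
  ∃ (c : Γ → Γ → Γ) (R : ℕ), IsCol T c ∧ ∀ δ : Γ, Reach T R c (fun γ x => c γ (x * δ))

variable {X : Type v} [MulAction Γ X]

theorem zone_add {F : Set Γ} {U : Set X} {n m : ℕ} {η : Γ} (hη : η ∈ F ^ m) {x : X}
    (h : η • x ∈ zone F U n) : x ∈ zone F U (n + m) := by
  obtain ⟨γ, hγ, hx⟩ := h
  refine ⟨γ * η, ?_, by rwa [mul_smul]⟩
  rw [pow_add]
  exact Set.mul_mem_mul hγ hη

/-- **The principle.** -/
theorem BC_of_kempeHom [Countable Γ] [MeasurableSpace X] [StandardBorelSpace X]
    (hmeas : ∀ γ : Γ, Measurable fun x : X => γ • x)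
    (hfree : ∀ (γ : Γ) (x : X), γ • x = x → γ = 1) {S T : Finset Γ} (hTS : T ⊆ S)
    (hsymm : ∀ g ∈ S, g⁻¹ ∈ S) (hTsymm : ∀ g ∈ T, g⁻¹ ∈ T) (h1 : (1 : Γ) ∉ S)
    (hasi : BorelAsiLe (schreierGraph S X) 1) (hT : KempeHom T) : BC X T := by
  classical
  obtain ⟨c, R, hc, hreach⟩ := hT
  choose f hf0 hfR hfN using hreach
  set F : Set Γ := insert 1 (T : Set Γ) with hF
  have h1F : (1 : Γ) ∈ F := mem_insert _ _
  have hTF : ∀ g ∈ T, g ∈ F := fun g hg => mem_insert_of_mem _ hg
  have hFinv : ∀ s ∈ F, s⁻¹ ∈ F := by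
    rintro s (rfl | hs)
    · left; exact inv_one
    · right; exact hTsymm s hs
  have hFfin : F.Finite := T.finite_toSet.insert 1
  have hFF : F ⊆ insert 1 (S : Set Γ) := insert_subset_insert (by exact_mod_cast hTS)
  let t : ℕ → ℕ := fun i => 1 + (R - i) * (R + 1)
  have ht : ∀ i, i < R → t (i + 1) + R + 1 = t i := by
    intro i hi
    simp only [t]
    have : R - i = (R - (i + 1)) + 1 := by omega
    rw [this]
    ring
  have ht1 : ∀ i, 1 ≤ t i := fun i => by simp only [t]; omega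
  obtain ⟨U, hUm, hUA, hUB⟩ := exists_sep (X := X) hsymm h1 hfree hasi (t 0)
  have hzz : ∀ n, zone F U n ⊆ zone (insert 1 (S : Set Γ)) U n := by
    rintro n x ⟨γ, hγ, hx⟩
    exact ⟨γ, Set.pow_subset_pow_left hFF hγ, hx⟩
  have hstp : ∀ (V V' : Set X), V ⊆ V' → ∀ x y, Relation.ReflTransGen (Stp F V) x y →
      Relation.ReflTransGen (Stp (insert 1 (S : Set Γ)) V') x y := by
    intro V V' hV x y h
    induction h with
    | refl => exact Relation.ReflTransGen.refl
    | tail _ hbc ih =>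
      obtain ⟨hb, s, hs, hab⟩ := hbc
      exact ih.tail ⟨hV hb, s, hFF hs, hab⟩
  obtain ⟨pA, hpAm, hpA⟩ := exists_frame hmeas hfree F hFinv (zone F U (t 0))
    (measurable_zone hmeas hFfin hUm _)
    (fun x hx => (hUA x (hzz _ hx)).subset fun y hy => hstp _ _ (hzz _) x y hy)
  obtain ⟨pB, hpBm, hpB⟩ := exists_frame hmeas hfree F hFinv Uᶜ hUm.compl
    (fun x hx => (hUB x hx).subset fun y hy => hstp _ _ subset_rfl x y hy)
  let δ : X → Γ := fun x => (pB x)⁻¹ * pA x
  let s : ℕ → X → Prop := fun i x => ∃ η : Γ,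
    Relation.ReflTransGen (DStep T (f (δ x) i) (f (δ x) (i + 1))) (pB x) (η * pB x) ∧
      η • x ∈ zone F U (t (i + 1))
  have hex : ∀ x, ∃ k, k = R ∨ ¬ s k x := fun x => ⟨R, Or.inl rfl⟩
  let k : X → ℕ := fun x => Nat.find (hex x)
  have hkR : ∀ x, k x ≤ R := fun x => Nat.find_min' (hex x) (Or.inl rfl)
  have hks : ∀ x i, i < k x → s i x := by
    intro x i hi
    have := Nat.find_min (hex x) hi
    push Not at this
    exact this.2
  have hkn : ∀ x, k x < R → ¬ s (k x) x := by
    intro x hx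
    rcases Nat.find_spec (hex x) with h | h
    · exact absurd h (by exact hx.ne)
    · exact h
  -- points near the set `U`
  have hnear : ∀ x i, i < R → s i x → x ∈ zone F U (t (i + 1) + R) := by
    rintro x i hi ⟨η, h2, h3⟩
    obtain ⟨η', h4, h5⟩ := (hfN (δ x) i hi).2.2 _ _ h2
    have : η = η' := mul_right_cancel h5
    subst this
    exact zone_add h4 h3
  have hs1 : ∀ x i, x ∈ zone F U (t (i + 1)) → s i x := by
    intro x i hx
    refine ⟨1, ?_, by rwa [one_smul]⟩
    rw [one_mul]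
  let col : Γ → X → Γ := fun γ x => if x ∈ U then c γ (pA x) else f (δ x) (k x) γ (pB x)
  have hfcol : ∀ d i, i ≤ R → IsCol T (f d i) := by
    intro d i hi
    rcases Nat.lt_or_ge i R with h | h
    · exact (hfN d i h).1
    · have hiR : i = R := le_antisymm hi h
      subst hiR
      rcases Nat.eq_zero_or_pos i with h0 | h0
      · subst h0
        refine ⟨fun γ hγ x => ?_, fun γ hγ x => ?_, fun x γ hγ γ' hγ' h => ?_⟩
        · rw [hf0 d γ hγ]; exact hc.mem γ hγ x
        · rw [hf0 d γ hγ, hf0 d γ⁻¹ (hTsymm γ hγ)]; exact hc.symm γ hγ x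
        · rw [hf0 d γ hγ, hf0 d γ' hγ'] at h; exact hc.inj x γ hγ γ' hγ' h
      · have := (hfN d (i - 1) (by omega)).2.1
        rwa [Nat.sub_add_cancel h0] at this
  -- an edge inside `Uᶜ`
  have hBB : ∀ γ ∈ T, ∀ x, x ∉ U → γ • x ∉ U → col γ⁻¹ (γ • x) = col γ x := by
    intro γ hγ x hx hx'
    simp only [col, hx, hx', if_false]
    have e1 : pB (γ • x) = γ * pB x := hpB x hx γ (hTF γ hγ) hx'
    by_cases hVV : x ∈ zone F U (t 0) ∧ γ • x ∈ zone F U (t 0)
    · have e2 : pA (γ • x) = γ * pA x := hpA x hVV.1 γ (hTF γ hγ) hVV.2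
      have e3 : δ (γ • x) = δ x := by simp only [δ, e1, e2]; group
      rw [e1, e3]
      -- transfer of `s` along an edge where the colourings differ
      have htr : ∀ i, f (δ x) i γ (pB x) ≠ f (δ x) (i + 1) γ (pB x) → i < R →
          (s i x ↔ s i (γ • x)) := by
        intro i hne hi
        have hsy1 := (hfcol (δ x) i hi.le).symm γ hγ (pB x)
        have hsy2 := (hfcol (δ x) (i + 1) hi).symm γ hγ (pB x)
        constructor
        · rintro ⟨η, h2, h3⟩
          refine ⟨η * γ⁻¹, ?_, by rwa [mul_smul, inv_smul_smul]⟩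
          rw [e3, e1, mul_assoc, inv_mul_cancel_left]
          refine Relation.ReflTransGen.head ⟨γ⁻¹, hTsymm γ hγ, inv_mul_cancel_left _ _, ?_⟩ h2
          rw [hsy1, hsy2]
          exact hne
        · rintro ⟨η, h2, h3⟩
          refine ⟨η * γ, ?_, by rwa [mul_smul]⟩
          rw [e3, e1] at h2
          rw [mul_assoc]
          exact Relation.ReflTransGen.head ⟨γ, hγ, rfl, hne⟩ h2
      have hup : ∀ y z : X, (∃ g ∈ T, g • y = z) → k y < k z → k z = k y + 1 := by
        rintro y z ⟨g, hg, rfl⟩ hlt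
        by_contra hcon
        have h2 : k y + 1 < k (g • y) := by omega
        have h3 := hks _ _ h2
        have h4 : k y + 1 < R := lt_of_lt_of_le h2 (hkR _)
        have h5 := hnear _ _ h4 h3
        have h6 : y ∈ zone F U (t (k y + 1 + 1) + R + 1) := zone_of_smul (hTF g hg) h5
        rw [ht _ h4] at h6
        exact hkn y (by omega) (hs1 y _ h6)
      rcases lt_trichotomy (k x) (k (γ • x)) with hlt | heq | hgt
      · have h2 := hup x (γ • x) ⟨γ, hγ, rfl⟩ hlt
        have h3 : k x < R := lt_of_lt_of_le hlt (hkR _)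
        have h4 := hks (γ • x) (k x) hlt
        have h5 := hkn x h3
        have h6 : f (δ x) (k x) γ (pB x) = f (δ x) (k x + 1) γ (pB x) := by
          by_contra hne
          exact h5 ((htr _ hne h3).2 h4)
        rw [h2, h6]
        exact (hfcol _ _ h3).symm γ hγ _
      · rw [← heq]
        exact (hfcol _ _ (hkR x)).symm γ hγ _
      · have h2 := hup (γ • x) x ⟨γ⁻¹, hTsymm γ hγ, inv_smul_smul _ _⟩ hgt
        have h3 : k (γ • x) < R := lt_of_lt_of_le hgt (hkR _)
        have h4 := hks x (k (γ • x)) hgt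
        have h5 := hkn (γ • x) h3
        have h6 : f (δ x) (k (γ • x)) γ (pB x) = f (δ x) (k (γ • x) + 1) γ (pB x) := by
          by_contra hne
          exact h5 ((htr _ hne h3).1 h4)
        rw [h2, ← h6]
        exact (hfcol _ _ h3.le).symm γ hγ _
    · have hk0 : k x = 0 ∧ k (γ • x) = 0 := by
        constructor
        · by_contra hne
          have hpos : 0 < k x := Nat.pos_of_ne_zero hne
          have hR : 0 < R := lt_of_lt_of_le hpos (hkR _)
          have h2 := hnear x 0 hR (hks x 0 hpos)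
          have h3 : γ • x ∈ zone F U (t (0 + 1) + R + 1) := smul_zone hFinv (hTF γ hγ) h2
          have h4 := zone_succ h1F U _ h2
          rw [ht 0 hR] at h3 h4
          exact hVV ⟨h4, h3⟩
        · by_contra hne
          have hpos : 0 < k (γ • x) := Nat.pos_of_ne_zero hne
          have hR : 0 < R := lt_of_lt_of_le hpos (hkR _)
          have h2 := hnear (γ • x) 0 hR (hks (γ • x) 0 hpos)
          have h3 : x ∈ zone F U (t (0 + 1) + R + 1) := zone_of_smul (hTF γ hγ) h2
          have h4 := zone_succ h1F U _ h2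
          rw [ht 0 hR] at h3 h4
          exact hVV ⟨h3, h4⟩
      rw [hk0.1, hk0.2, hf0 _ γ hγ, hf0 _ γ⁻¹ (hTsymm γ hγ), e1]
      exact hc.symm γ hγ _
  -- an edge from `U` to `Uᶜ`
  have hAB : ∀ γ ∈ T, ∀ x, x ∈ U → γ • x ∉ U → col γ⁻¹ (γ • x) = col γ x := by
    intro γ hγ x hx hx'
    have hx0 : x ∈ zone F U 0 := by rwa [zone_zero]
    have hx1 : γ • x ∈ zone F U 1 := smul_zone hFinv (hTF γ hγ) hx0
    have hV : γ • x ∈ zone F U (t 0) := zone_mono h1F U (ht1 0) hx1
    have hV' : x ∈ zone F U (t 0) := zone_mono h1F U (Nat.zero_le _) hx0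
    have hk : k (γ • x) = R := by
      by_contra hne
      have hlt : k (γ • x) < R := lt_of_le_of_ne (hkR _) hne
      exact hkn _ hlt (hs1 _ _ (zone_mono h1F U (ht1 _) hx1))
    simp only [col, hx, hx', if_false, if_true]
    rw [hk, hfR _ γ⁻¹ (hTsymm γ hγ)]
    have e2 : pA (γ • x) = γ * pA x := hpA x hV' γ (hTF γ hγ) hV
    have e4 : pB (γ • x) * δ (γ • x) = γ * pA x := by
      simp only [δ]
      rw [mul_inv_cancel_left, e2]
    show c γ⁻¹ (pB (γ • x) * δ (γ • x)) = c γ (pA x)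
    rw [e4]
    exact hc.symm γ hγ _
  refine ⟨col, ?_, ?_, ?_, ?_⟩
  · -- measurability
    intro γ hγ
    have hsm : ∀ i (a b : Γ), MeasurableSet {x : X | ∃ η : Γ,
        Relation.ReflTransGen (DStep T (f (b⁻¹ * a) i) (f (b⁻¹ * a) (i + 1))) b (η * b) ∧
          η • x ∈ zone F U (t (i + 1))} := by
      intro i a b
      have : {x : X | ∃ η : Γ,
          Relation.ReflTransGen (DStep T (f (b⁻¹ * a) i) (f (b⁻¹ * a) (i + 1))) b (η * b) ∧
          η • x ∈ zone F U (t (i + 1))} = ⋃ η : Γ, ({_x : X |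
          Relation.ReflTransGen (DStep T (f (b⁻¹ * a) i) (f (b⁻¹ * a) (i + 1))) b (η * b)} ∩
          (fun x : X => η • x) ⁻¹' zone F U (t (i + 1))) := by
        ext x
        simp
      rw [this]
      exact MeasurableSet.iUnion fun η => (MeasurableSet.const _).inter
        (hmeas η (measurable_zone hmeas hFfin hUm _))
    have hsm' : ∀ i, MeasurableSet {x | s i x} := by
      intro i
      have : {x | s i x} = ⋃ a : Γ, ⋃ b : Γ, ({x | pA x = a} ∩ {x | pB x = b} ∩ {x : X | ∃ η : Γ,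
          Relation.ReflTransGen (DStep T (f (b⁻¹ * a) i) (f (b⁻¹ * a) (i + 1))) b (η * b) ∧
          η • x ∈ zone F U (t (i + 1))}) := by
        ext x
        simp only [mem_iUnion, mem_inter_iff, mem_ofPred_eq]
        constructor
        · intro h
          exact ⟨pA x, pB x, ⟨rfl, rfl⟩, h⟩
        · rintro ⟨a, b, ⟨rfl, rfl⟩, h⟩
          exact h
      rw [this]
      exact MeasurableSet.iUnion fun a => MeasurableSet.iUnion fun b =>
        ((hpAm a).inter (hpBm b)).inter (hsm i a b)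
    have hkm : FM k := by
      intro j
      have : {x | k x = j} = {x | (j = R ∨ ¬ s j x) ∧ ∀ i < j, ¬ (i = R ∨ ¬ s i x)} := by
        ext x
        exact Nat.find_eq_iff (hex x)
      rw [this]
      have e : {x | (j = R ∨ ¬ s j x) ∧ ∀ i < j, ¬ (i = R ∨ ¬ s i x)} =
          ({_x | j = R} ∪ {x | s j x}ᶜ) ∩ ⋂ i ∈ Finset.range j, ({_x | i = R} ∪ {x | s i x}ᶜ)ᶜ := by
        ext x
        simp
      rw [e]
      exact ((MeasurableSet.const _).union (hsm' j).compl).inter
        (Finset.measurableSet_biInter _ fun i _ =>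
          ((MeasurableSet.const _).union (hsm' i).compl).compl)
    have hδm : FM δ := by
      have := (hpAm.pair hpBm).comp (fun q : Γ × Γ => q.2⁻¹ * q.1)
      exact this
    have h2 : FM (fun x => f (δ x) (k x) γ (pB x)) := by
      have := ((hδm.pair hkm).pair hpBm).comp (fun q : (Γ × ℕ) × Γ => f q.1.1 q.1.2 γ q.2)
      exact this
    have h3 : FM (fun x => c γ (pA x)) := hpAm.comp (fun a => c γ a)
    exact FM.ite (P := fun x => x ∈ U) hUm h3 h2
  · intro γ hγ x
    simp only [col]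
    split_ifs with h
    · exact hc.mem γ hγ _
    · exact (hfcol _ _ (hkR x)).mem γ hγ _
  · intro γ hγ x
    by_cases hx : x ∈ U
    · by_cases hx' : γ • x ∈ U
      · simp only [col, hx, hx', if_true]
        have hV : ∀ y ∈ U, y ∈ zone F U (t 0) := fun y hy =>
          zone_mono h1F U (Nat.zero_le _) (by rwa [zone_zero])
        rw [hpA x (hV x hx) γ (hTF γ hγ) (hV _ hx')]
        exact hc.symm γ hγ _
      · exact hAB γ hγ x hx hx'
    · by_cases hx' : γ • x ∈ U
      · have := hAB γ⁻¹ (hTsymm γ hγ) (γ • x) hx' (by rwa [inv_smul_smul])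
        rw [inv_inv, inv_smul_smul] at this
        exact this.symm
      · exact hBB γ hγ x hx hx'
  · intro x γ hγ γ' hγ' h
    simp only [col] at h
    split_ifs at h with hx
    · exact hc.inj _ γ hγ γ' hγ' h
    · exact (hfcol _ _ (hkR x)).inj _ γ hγ γ' hγ' h

end Pool.Agent.MP1822K
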