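import Pool.Agent.Lib.MP_1822da_lc.KC.Theta

/-!
# Kempe homogeneous sets: reduction to the generated subgroup, periodic colourings
-/

namespace Pool.Agent.MP1822K

open Set MeasureTheory Pointwise
open Pool.Agent.Lib.MP_1822da_lc Pool.Agent.MP1822T Pool.Agent.MP1822C

universe u v

variable {Γ : Type u} [Group Γ]

section sub

variable {T : Finset Γ}

open Classical in
/-- a colouring which is `φ x` on the coset of `x` -/
noncomputable def lft (φ : Γ → gp T → gp T → gp T) : Γ → Γ → Γ := fun γ x =>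
  if h : γ ∈ T then (φ x ⟨γ, mem_gp h⟩ (lam T x) : Γ) else 1

lemma lft_apply (φ : Γ → gp T → gp T → gp T) {γ : Γ} (h : γ ∈ T) (x : Γ) :
    lft φ γ x = (φ x ⟨γ, mem_gp h⟩ (lam T x) : Γ) := by
  simp only [lft, h, dif_pos]

variable {T' : Finset (gp T)} (hT : ∀ t : gp T, t ∈ T' ↔ (t : Γ) ∈ T)

include hT in
lemma lft_isCol (hs : ∀ t ∈ T, t⁻¹ ∈ T) (φ : Γ → gp T → gp T → gp T)
    (hφ : ∀ h ∈ gp T, ∀ x, φ (h * x) = φ x) (hc : ∀ x, IsCol T' (φ x)) : IsCol T (lft φ) := by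
  refine ⟨fun γ hγ x => ?_, fun γ hγ x => ?_, fun x γ hγ δ hδ he => ?_⟩
  · rw [lft_apply φ hγ]
    exact (hT _).1 ((hc x).mem _ ((hT _).2 hγ) _)
  · rw [lft_apply φ hγ, lft_apply φ (hs γ hγ), hφ γ (mem_gp hγ)]
    have h1 : lam T (γ * x) = ⟨γ, mem_gp hγ⟩ * lam T x := lam_mul T ⟨γ, mem_gp hγ⟩ x
    rw [h1]
    exact congrArg Subtype.val ((hc x).symm ⟨γ, mem_gp hγ⟩ ((hT _).2 hγ) (lam T x))
  · rw [lft_apply φ hγ, lft_apply φ hδ] at he
    exact congrArg Subtype.val ((hc x).inj _ _ ((hT _).2 hγ) _ ((hT _).2 hδ) (Subtype.ext he))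

include hT in
lemma lft_near (hs : ∀ t ∈ T, t⁻¹ ∈ T) (φ φ' : Γ → gp T → gp T → gp T)
    (hφ : ∀ h ∈ gp T, ∀ x, φ (h * x) = φ x) (hφ' : ∀ h ∈ gp T, ∀ x, φ' (h * x) = φ' x) {R : ℕ}
    (hn : ∀ x, Near T' R (φ x) (φ' x)) : Near T R (lft φ) (lft φ') := by
  refine ⟨lft_isCol hT hs φ hφ fun x => (hn x).1, lft_isCol hT hs φ' hφ' fun x => (hn x).2.1,
    fun x y hxy => ?_⟩
  have key : rep T y = rep T x ∧
      Relation.ReflTransGen (DStep T' (φ x) (φ' x)) (lam T x) (lam T y) := by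
    induction hxy with
    | refl => exact ⟨rfl, Relation.ReflTransGen.refl⟩
    | @tail y z _ hyz ih =>
      obtain ⟨ihr, ih⟩ := ih
      obtain ⟨γ, hγ, h2, h3⟩ := hyz
      have e : y = (lam T y * (lam T x)⁻¹ : gp T) * x := by
        have e1 := lam_rep T y
        have e2 := lam_rep T x
        rw [ihr] at e1
        calc y = lam T y * rep T x := e1.symm
          _ = lam T y * ((lam T x : Γ)⁻¹ * (lam T x * rep T x)) := by group
          _ = _ := by rw [e2]; simp [mul_assoc]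
      have hy1 : φ y = φ x := by
        rw [e]
        exact hφ _ (Subtype.prop _) x
      have hy2 : φ' y = φ' x := by
        rw [e]
        exact hφ' _ (Subtype.prop _) x
      refine ⟨by rw [← h2, rep_mul T (mem_gp hγ), ihr], ih.tail ⟨⟨γ, mem_gp hγ⟩, (hT _).2 hγ, ?_, ?_⟩⟩
      · rw [← h2]
        exact (lam_mul T ⟨γ, mem_gp hγ⟩ y).symm
      · intro h4
        apply h3
        rw [lft_apply φ hγ, lft_apply φ' hγ, hy1, hy2, h4]
  obtain ⟨η, h1, h2⟩ := (hn x).2.2 _ _ key.2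
  refine ⟨η, ?_, ?_⟩
  · have hmap : ∀ n, ∀ η ∈ (insert 1 (T' : Set (gp T))) ^ n, (η : Γ) ∈ (insert 1 (T : Set Γ)) ^ n := by
      intro n
      induction n with
      | zero =>
        intro η hη
        rw [pow_zero, Set.mem_one] at hη ⊢
        rw [hη]
        rfl
      | succ n ih =>
        intro η hη
        rw [pow_succ] at hη ⊢
        obtain ⟨a, ha, b, hb, rfl⟩ := hη
        refine Set.mul_mem_mul (ih a ha) ?_
        rcases hb with rfl | hb
        · exact Or.inl rfl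
        · exact Or.inr ((hT b).1 hb)
    exact hmap R η h1
  · rw [← lam_rep T y, h2, key.1]
    show (η : Γ) * (lam T x : Γ) * rep T x = η * x
    rw [mul_assoc, lam_rep]

include hT in
/-- **Reduction to the generated subgroup.** -/
theorem KempeHomJ.of_subgroup {J : Finset Γ} (hs : ∀ t ∈ T, t⁻¹ ∈ T) {J' : Finset (gp T)}
    (hJ : ∀ t : gp T, (t : Γ) ∈ J → t ∈ J') (h : KempeHomJ J' T') : KempeHomJ J T := by
  obtain ⟨c, n, R, hc, hcJ, hst⟩ := h
  have hex := fun ρ => (hst ρ).exists_fun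
  choose f hf0 hfn hfN using hex
  refine ⟨lft (fun _ => c), n, R, lft_isCol hT hs _ (fun _ _ _ => rfl) (fun _ => hc), ?_, fun δ => ?_⟩
  · intro s hsT hsJ x
    rw [lft_apply _ hsT, hcJ _ ((hT _).2 hsT) (hJ _ hsJ)]
  · let ρ : Γ → gp T := fun x => lam T (rep T x * δ)
    have hρ : ∀ h ∈ gp T, ∀ x, ρ (h * x) = ρ x := by
      intro h hh x
      simp only [ρ, rep_mul T hh]
    have h1 : Steps T R n (lft (fun x => f (ρ x) 0)) (lft (fun x => f (ρ x) n)) := by
      refine Steps.of_fun n (fun i => lft (fun x => f (ρ x) i)) fun i hi => ?_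
      refine lft_near hT hs _ _ ?_ ?_ fun x => hfN (ρ x) i hi
      · intro h hh x
        rw [hρ h hh]
      · intro h hh x
        rw [hρ h hh]
    have h2 : Agree T (lft (fun x => f (ρ x) n)) (fun γ x => lft (fun _ => c) γ (x * δ)) := by
      intro γ hγ x
      show lft (fun x => f (ρ x) n) γ x = lft (fun _ => c) γ (x * δ)
      rw [lft_apply _ hγ, lft_apply _ hγ, hfn (ρ x) _ ((hT _).2 hγ), lam_translate]
    have h3 : (fun x => f (ρ x) 0) = fun _ => c := by
      funext x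
      exact hf0 (ρ x)
    rw [h3] at h1
    have h4 := h1.trans hs (m := 0) (.zero h2)
    rwa [Nat.add_zero] at h4

end sub

section periodic

variable {T : Finset Γ}

lemma Near.symm {R : ℕ} {c c' : Γ → Γ → Γ} (h : Near T R c c') : Near T R c' c := by
  refine ⟨h.2.1, h.1, fun x y hxy => h.2.2 x y ?_⟩
  induction hxy with
  | refl => exact Relation.ReflTransGen.refl
  | tail _ hbc ih =>
    obtain ⟨γ, hγ, h1, h2⟩ := hbc
    exact ih.tail ⟨γ, hγ, h1, h2.symm⟩

lemma Near.translate {R : ℕ} {c c' : Γ → Γ → Γ} (h : Near T R c c') (δ : Γ) :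
    Near T R (fun γ x => c γ (x * δ)) (fun γ x => c' γ (x * δ)) := by
  refine ⟨h.1.translate δ, h.2.1.translate δ, fun x y hxy => ?_⟩
  have h1 : Relation.ReflTransGen (DStep T c c') (x * δ) (y * δ) := by
    induction hxy with
    | refl => exact Relation.ReflTransGen.refl
    | tail _ hbc ih =>
      obtain ⟨γ, hγ, h1, h2⟩ := hbc
      exact ih.tail ⟨γ, hγ, by rw [← h1, mul_assoc], h2⟩
  obtain ⟨η, h2, h3⟩ := h.2.2 _ _ h1
  exact ⟨η, h2, mul_right_cancel (h3.trans (mul_assoc _ _ _).symm)⟩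

lemma Steps.translate {R n : ℕ} {c c' : Γ → Γ → Γ} (h : Steps T R n c c') (δ : Γ) :
    Steps T R n (fun γ x => c γ (x * δ)) (fun γ x => c' γ (x * δ)) := by
  induction h with
  | zero h => exact .zero fun γ hγ x => h γ hγ (x * δ)
  | succ h1 _ ih => exact .succ (h1.translate δ) ih

lemma Steps.snoc (hs : ∀ t ∈ T, t⁻¹ ∈ T) {R n : ℕ} {c c' c'' : Γ → Γ → Γ}
    (h : Steps T R n c c') (h' : Near T R c' c'') : Steps T R (n + 1) c c'' :=
  h.trans hs (.succ h' (.zero (Agree.refl _ _)))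

lemma Steps.symm (hs : ∀ t ∈ T, t⁻¹ ∈ T) {R n : ℕ} {c c' : Γ → Γ → Γ}
    (h : Steps T R n c c') : Steps T R n c' c := by
  induction h with
  | zero h => exact .zero h.symm
  | succ h1 _ ih => exact ih.snoc hs h1.symm

lemma Steps.congr_right (hs : ∀ t ∈ T, t⁻¹ ∈ T) {R n : ℕ} {c c' d : Γ → Γ → Γ}
    (h : Steps T R n c c') (ha : Agree T c' d) : Steps T R n c d := by
  have := h.trans hs (m := 0) (.zero ha)
  rwa [Nat.add_zero] at this

lemma Steps.pad (hs : ∀ t ∈ T, t⁻¹ ∈ T) {R n m : ℕ} {c c' : Γ → Γ → Γ} (hc : IsCol T c)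
    (h : Steps T R n c c') (hnm : n ≤ m) : Steps T R m c c' := by
  obtain ⟨k, rfl⟩ := Nat.exists_eq_add_of_le hnm
  clear hnm
  induction k with
  | zero => exact h
  | succ k ih => exact .succ (Near.same R hc) ih

/-- **Periodic colourings**: it is enough to reach the translates by the generators. -/
theorem KempeHomJ.of_periodic {J : Finset Γ} (hs : ∀ t ∈ T, t⁻¹ ∈ T) (hgen : gp T = ⊤)
    {c : Γ → Γ → Γ} (hc : IsCol T c) (hcJ : ∀ s ∈ T, s ∈ J → ∀ x, c s x = s)
    (Δ : Finset Γ) (hΔ : ∀ δ : Γ, ∃ δ' ∈ Δ, Agree T (fun γ x => c γ (x * δ))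
      (fun γ x => c γ (x * δ')))
    (hst : ∀ t ∈ T, ∃ n R, Steps T R n c (fun γ x => c γ (x * t)) ∨
      Steps T R n c (fun γ x => c γ (x * t⁻¹))) : KempeHomJ J T := by
  classical
  have hall : ∀ δ : Γ, ∃ n R, Steps T R n c (fun γ x => c γ (x * δ)) := by
    have hmul : ∀ δ δ' : Γ, (∃ n R, Steps T R n c (fun γ x => c γ (x * δ))) →
        (∃ n R, Steps T R n c (fun γ x => c γ (x * δ'))) →
        ∃ n R, Steps T R n c (fun γ x => c γ (x * (δ * δ'))) := by
      rintro δ δ' ⟨n, R, h⟩ ⟨n', R', h'⟩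
      have h2 := h'.translate δ
      simp only [mul_assoc] at h2
      exact ⟨n + n', max R R', (h.mono (le_max_left _ _)).trans hs (h2.mono (le_max_right _ _))⟩
    have hinv : ∀ δ : Γ, (∃ n R, Steps T R n c (fun γ x => c γ (x * δ))) →
        ∃ n R, Steps T R n c (fun γ x => c γ (x * δ⁻¹)) := by
      rintro δ ⟨n, R, h⟩
      have h2 := (h.translate δ⁻¹).symm hs
      simp only [inv_mul_cancel_right] at h2
      exact ⟨n, R, h2⟩
    have hT : ∀ t ∈ T, ∃ n R, Steps T R n c (fun γ x => c γ (x * t)) := by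
      intro t ht
      obtain ⟨n, R, h | h⟩ := hst t ht
      · exact ⟨n, R, h⟩
      · have := hinv t⁻¹ ⟨n, R, h⟩
        rwa [inv_inv] at this
    intro δ
    have hδ : δ ∈ gp T := hgen ▸ Subgroup.mem_top δ
    induction hδ using Subgroup.closure_induction with
    | mem x hx => exact hT x hx
    | one =>
      refine ⟨0, 0, .zero fun γ _ x => ?_⟩
      show c γ x = c γ (x * 1)
      rw [mul_one]
    | mul x y _ _ hx hy => exact hmul x y hx hy
    | inv x _ hx => exact hinv x hx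
  choose n R h using hall
  refine ⟨c, Δ.sup n, Δ.sup R, hc, hcJ, fun δ => ?_⟩
  obtain ⟨δ', hδ', ha⟩ := hΔ δ
  have h1 := ((h δ').mono (Finset.le_sup (f := R) hδ')).pad hs hc (Finset.le_sup (f := n) hδ')
  exact h1.congr_right hs ha.symm

/-- Every element of the generated subgroup is a short word. -/
lemma exists_pow (hs : ∀ t ∈ T, t⁻¹ ∈ T) {y : Γ} (hy : y ∈ gp T) :
    ∃ n, y ∈ (insert 1 (T : Set Γ)) ^ n := by
  have hinv : ∀ n, ∀ y ∈ (insert 1 (T : Set Γ)) ^ n, y⁻¹ ∈ (insert 1 (T : Set Γ)) ^ n := by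
    intro n
    induction n with
    | zero =>
      intro y hy
      rw [pow_zero, Set.mem_one] at hy ⊢
      rw [hy, inv_one]
    | succ n ih =>
      intro y hy
      rw [pow_succ] at hy
      rw [pow_succ']
      obtain ⟨a, ha, b, hb, rfl⟩ := hy
      show (a * b)⁻¹ ∈ _
      rw [mul_inv_rev]
      refine Set.mul_mem_mul ?_ (ih a ha)
      rcases hb with rfl | hb
      · left; exact inv_one
      · right; exact hs b hb
  induction hy using Subgroup.closure_induction with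
  | mem x hx => exact ⟨1, by rw [pow_one]; exact Or.inr hx⟩
  | one => exact ⟨0, by simp⟩
  | mul x y _ _ hx hy =>
    obtain ⟨n, hn⟩ := hx
    obtain ⟨m, hm⟩ := hy
    exact ⟨n + m, by rw [pow_add]; exact Set.mul_mem_mul hn hm⟩
  | inv x _ hx =>
    obtain ⟨n, hn⟩ := hx
    exact ⟨n, hinv n x hn⟩

/-- Components of bounded diameter by a potential with finitely many values. -/
lemma near_of_potential (hs : ∀ t ∈ T, t⁻¹ ∈ T) {c c' : Γ → Γ → Γ} (hc : IsCol T c)
    (hc' : IsCol T c') (V : Finset Γ) (hV : ∀ v ∈ V, v ∈ gp T) (P : Γ → Γ) (hPV : ∀ x, P x ∈ V)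
    (hP : ∀ γ ∈ T, ∀ x, c γ x ≠ c' γ x → P (γ * x) = γ * P x) : ∃ R, Near T R c c' := by
  classical
  have hex : ∀ v : Γ, ∃ n, v ∈ V → v ∈ (insert 1 (T : Set Γ)) ^ n ∧
      v⁻¹ ∈ (insert 1 (T : Set Γ)) ^ n := by
    intro v
    by_cases h : v ∈ V
    · obtain ⟨n, hn⟩ := exists_pow hs (hV v h)
      obtain ⟨m, hm⟩ := exists_pow hs ((gp T).inv_mem (hV v h))
      exact ⟨max n m, fun _ => ⟨pow_subset_pow (mem_insert _ _) (le_max_left _ _) hn,
        pow_subset_pow (mem_insert _ _) (le_max_right _ _) hm⟩⟩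
    · exact ⟨0, fun h' => absurd h' h⟩
  choose n hn using hex
  refine ⟨V.sup n + V.sup n, hc, hc', fun x y hxy => ?_⟩
  have key : y = P y * (P x)⁻¹ * x := by
    induction hxy with
    | refl => group
    | @tail y z _ hyz ih =>
      obtain ⟨γ, hγ, h1, h2⟩ := hyz
      have h3 := hP γ hγ y h2
      rw [h1] at h3
      rw [h3, ← h1]
      conv_lhs => rw [ih]
      group
  refine ⟨P y * (P x)⁻¹, ?_, key⟩
  rw [pow_add]
  exact Set.mul_mem_mul
    (pow_subset_pow (mem_insert _ _) (Finset.le_sup (f := n) (hPV y)) (hn _ (hPV y)).1)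
    (pow_subset_pow (mem_insert _ _) (Finset.le_sup (f := n) (hPV x)) (hn _ (hPV x)).2)

end periodic

end Pool.Agent.MP1822K
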