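import Pool.Agent.Lib.MP_1822da_lc.KC.Glue

/-!
# Kempe blocks
-/

namespace Pool.Agent.MP1822K

open Set MeasureTheory Pointwise
open Pool.Agent.Lib.MP_1822da_lc Pool.Agent.MP1822T Pool.Agent.MP1822C

universe u v

variable {Γ : Type u} [Group Γ]

/-- the subgroup generated by `T` -/
abbrev gp (T : Finset Γ) : Subgroup Γ := Subgroup.closure (T : Set Γ)

lemma mem_gp {T : Finset Γ} {t : Γ} (ht : t ∈ T) : t ∈ gp T := Subgroup.subset_closure ht

/-- the step from `x` along the edge of colour `a` -/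
def flip {T : Finset Γ} (θ : gp T →* Equiv.Perm {x // x ∈ T}) (a : {x // x ∈ T}) (x : gp T) :
    gp T := ⟨(θ x a : Γ), mem_gp (θ x a).2⟩ * x

/-- the colours `u` and `v` are exchangeable: the cycles with the colours `u`, `v` are finite (of
bounded length) -/
def Exch {T : Finset Γ} (θ : gp T →* Equiv.Perm {x // x ∈ T}) (u v : {x // x ∈ T}) : Prop :=
  ∃ m, 0 < m ∧ ∀ h : gp T, (fun y => flip θ v (flip θ u y))^[m] h = h

/-- A Kempe block with the fixed elements `J`. -/
structure IsBlock (J T : Finset Γ) (θ : gp T →* Equiv.Perm {x // x ∈ T}) : Prop where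
  symm : ∀ t ∈ T, t⁻¹ ∈ T
  inv : ∀ t (ht : t ∈ T), ((θ ⟨t, mem_gp ht⟩ ⟨t, ht⟩ : {x // x ∈ T}) : Γ) = t⁻¹
  fix : ∀ t (ht : t ∈ T), t ∈ J → ∀ x, θ x ⟨t, ht⟩ = ⟨t, ht⟩
  conn : ∀ x t, Relation.ReflTransGen (Exch θ) t (θ x t)

section reps

variable (T : Finset Γ)

/-- the representative of the coset of `x` -/
noncomputable def rep (x : Γ) : Γ :=
  Quotient.out (s := QuotientGroup.rightRel (gp T)) (Quotient.mk _ x)

lemma rep_spec (x : Γ) : x * (rep T x)⁻¹ ∈ gp T := by
  have h : (QuotientGroup.rightRel (gp T)) (rep T x) x :=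
    Quotient.mk_out (s := QuotientGroup.rightRel (gp T)) x
  exact QuotientGroup.rightRel_apply.1 h

/-- the part of `x` in the subgroup -/
noncomputable def lam (x : Γ) : gp T := ⟨x * (rep T x)⁻¹, rep_spec T x⟩

lemma rep_mul {h : Γ} (hh : h ∈ gp T) (x : Γ) : rep T (h * x) = rep T x := by
  unfold rep
  congr 1
  refine Quotient.sound (s := QuotientGroup.rightRel (gp T)) ?_
  refine QuotientGroup.rightRel_apply.2 ?_
  have : x * (h * x)⁻¹ = h⁻¹ := by group
  rw [this]
  exact (gp T).inv_mem hh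

lemma lam_mul (h : gp T) (x : Γ) : lam T (h * x) = h * lam T x := by
  apply Subtype.ext
  show (h : Γ) * x * (rep T (h * x))⁻¹ = (h : Γ) * (x * (rep T x)⁻¹)
  rw [rep_mul T h.2, mul_assoc]

lemma lam_rep (x : Γ) : (lam T x : Γ) * rep T x = x := by
  show x * (rep T x)⁻¹ * rep T x = x
  group

lemma lam_translate (x δ : Γ) : lam T (x * δ) = lam T x * lam T (rep T x * δ) := by
  rw [← lam_mul, ← mul_assoc, lam_rep]

end reps

section block

variable {J T : Finset Γ} (θ : gp T →* Equiv.Perm {x // x ∈ T})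

open Classical in
/-- the colouring with the additional permutations `σ` of the colours -/
noncomputable def col (σ : Γ → Equiv.Perm {x // x ∈ T}) : Γ → Γ → Γ := fun γ x =>
  if h : γ ∈ T then ((σ x ((θ (lam T x))⁻¹ ⟨γ, h⟩) : {x // x ∈ T}) : Γ) else 1

lemma col_apply (σ : Γ → Equiv.Perm {x // x ∈ T}) {γ : Γ} (h : γ ∈ T) (x : Γ) :
    col θ σ γ x = ((σ x ((θ (lam T x))⁻¹ ⟨γ, h⟩) : {x // x ∈ T}) : Γ) := by
  simp only [col, h, dif_pos]

lemma col_isCol (hθ : IsBlock J T θ) (σ : Γ → Equiv.Perm {x // x ∈ T})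
    (hσ : ∀ h ∈ gp T, ∀ x, σ (h * x) = σ x) : IsCol T (col θ σ) := by
  refine ⟨fun γ hγ x => ?_, fun γ hγ x => ?_, fun x γ hγ δ hδ he => ?_⟩
  · rw [col_apply θ σ hγ]
    exact Subtype.prop _
  · rw [col_apply θ σ hγ, col_apply θ σ (hθ.symm γ hγ), hσ γ (mem_gp hγ)]
    have h1 : lam T (γ * x) = ⟨γ, mem_gp hγ⟩ * lam T x := lam_mul T ⟨γ, mem_gp hγ⟩ x
    have h2 : (⟨γ⁻¹, hθ.symm γ hγ⟩ : {x // x ∈ T}) = θ ⟨γ, mem_gp hγ⟩ ⟨γ, hγ⟩ :=
      Subtype.ext (hθ.inv γ hγ).symm
    rw [h1, map_mul, mul_inv_rev, h2, Equiv.Perm.mul_apply]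
    congr 3
    exact Equiv.symm_apply_apply _ _
  · rw [col_apply θ σ hγ, col_apply θ σ hδ] at he
    have h1 := (θ (lam T x))⁻¹.injective ((σ x).injective (Subtype.ext he))
    exact congrArg Subtype.val h1

lemma flip_flip (hθ : IsBlock J T θ) (a : {x // x ∈ T}) (x : gp T) :
    flip θ a (flip θ a x) = x := by
  have h1 : θ (flip θ a x) a = ⟨(θ x a : Γ)⁻¹, hθ.symm _ (θ x a).2⟩ := by
    unfold flip
    rw [map_mul, Equiv.Perm.mul_apply]
    exact Subtype.ext (hθ.inv _ (θ x a).2)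
  have h2 : flip θ a (flip θ a x) = ⟨((θ (flip θ a x) a : {x // x ∈ T}) : Γ),
      mem_gp (θ (flip θ a x) a).2⟩ * flip θ a x := rfl
  apply Subtype.ext
  rw [h2]
  show ((θ (flip θ a x) a : {x // x ∈ T}) : Γ) * (flip θ a x : Γ) = x
  rw [h1]
  show (θ x a : Γ)⁻¹ * ((θ x a : Γ) * x) = x
  group

lemma flip_pow (u v : {x // x ∈ T}) (h : gp T) (i : ℕ) :
    ∃ η ∈ (insert 1 (T : Set Γ)) ^ (2 * i),
      ((((fun y => flip θ v (flip θ u y))^[i] h : gp T)) : Γ) = η * h := by
  induction i with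
  | zero => exact ⟨1, by simp, by simp⟩
  | succ i ih =>
    obtain ⟨η, h1, h2⟩ := ih
    set y := (fun y => flip θ v (flip θ u y))^[i] h with hy
    refine ⟨(θ (flip θ u y) v : Γ) * ((θ y u : Γ) * η), ?_, ?_⟩
    · have e : 2 * (i + 1) = 1 + (1 + 2 * i) := by ring
      rw [e, pow_add, pow_add, pow_one]
      exact Set.mul_mem_mul (mem_insert_of_mem _ (θ (flip θ u y) v).2)
        (Set.mul_mem_mul (mem_insert_of_mem _ (θ y u).2) h1)
    · rw [Function.iterate_succ_apply', ← hy]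
      show (θ (flip θ u y) v : Γ) * ((θ y u : Γ) * (y : Γ)) = _
      rw [h2]
      group

lemma flip_pow' (u v : {x // x ∈ T}) (h : gp T) (i : ℕ) :
    ∃ η ∈ (insert 1 (T : Set Γ)) ^ (2 * i + 1),
      ((flip θ u ((fun y => flip θ v (flip θ u y))^[i] h) : gp T) : Γ) = η * h := by
  obtain ⟨η, h1, h2⟩ := flip_pow θ u v h i
  refine ⟨(θ ((fun y => flip θ v (flip θ u y))^[i] h) u : Γ) * η, ?_, ?_⟩
  · rw [add_comm, pow_add, pow_one]
    exact Set.mul_mem_mul (mem_insert_of_mem _ (Subtype.prop _)) h1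
  · show (θ ((fun y => flip θ v (flip θ u y))^[i] h) u : Γ) *
      ((((fun y => flip θ v (flip θ u y))^[i] h : gp T)) : Γ) = _
    rw [h2, mul_assoc]

/-- One exchange. -/
lemma near_step (hθ : IsBlock J T θ) {M : ℕ}
    (hM : ∀ u v, Exch θ u v → ∃ m, 0 < m ∧ m ≤ M ∧
      ∀ h : gp T, (fun y => flip θ v (flip θ u y))^[m] h = h)
    (σ τ : Γ → Equiv.Perm {x // x ∈ T}) (hσ : ∀ h ∈ gp T, ∀ x, σ (h * x) = σ x)
    (hτ : ∀ h ∈ gp T, ∀ x, τ (h * x) = τ x)
    (hτ' : ∀ x, τ x = 1 ∨ ∃ u v, Exch θ u v ∧ u ≠ v ∧ ∀ w, τ x w ≠ w → w = u ∨ w = v) :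
    Near T (2 * M + 1) (col θ σ) (col θ (fun x => σ x * τ x)) := by
  have hσ' : ∀ h ∈ gp T, ∀ x, (fun x => σ x * τ x) (h * x) = (fun x => σ x * τ x) x := by
    intro h hh x
    show σ (h * x) * τ (h * x) = σ x * τ x
    rw [hσ h hh, hτ h hh]
  refine ⟨col_isCol θ hθ σ hσ, col_isCol θ hθ _ hσ', fun x y hxy => ?_⟩
  -- a step at which the colourings differ
  have hstep : ∀ z w, DStep T (col θ σ) (col θ (fun x => σ x * τ x)) z w → ∃ γ, ∃ hγ : γ ∈ T,
      γ * z = w ∧ τ z ((θ (lam T z))⁻¹ ⟨γ, hγ⟩) ≠ (θ (lam T z))⁻¹ ⟨γ, hγ⟩ := by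
    rintro z w ⟨γ, hγ, h1, h2⟩
    refine ⟨γ, hγ, h1, fun h3 => h2 ?_⟩
    rw [col_apply θ _ hγ, col_apply θ _ hγ, Equiv.Perm.mul_apply, h3]
  rcases hτ' x with h1 | ⟨u, v, huv, hne, h1⟩
  · -- no difference at all
    refine ⟨1, pow_subset_pow (mem_insert _ _) (Nat.zero_le _) (by simp), ?_⟩
    rw [one_mul]
    rcases Relation.ReflTransGen.cases_head hxy with h2 | ⟨z, h2, -⟩
    · exact h2.symm
    · obtain ⟨γ, hγ, -, h3⟩ := hstep _ _ h2
      rw [h1] at h3
      exact absurd rfl h3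
  · obtain ⟨m, hm, hmM, hper⟩ := hM u v huv
    set g : gp T → gp T := fun y => flip θ v (flip θ u y) with hg
    have key : rep T y = rep T x ∧ ∃ i, lam T y = g^[i] (lam T x) ∨
        lam T y = flip θ u (g^[i] (lam T x)) := by
      induction hxy with
      | refl => exact ⟨rfl, 0, Or.inl rfl⟩
      | @tail y z _ hyz ih =>
        obtain ⟨ihr, i, ih⟩ := ih
        obtain ⟨γ, hγ, h2, h3⟩ := hstep _ _ hyz
        have hyx : τ y = τ x := by
          have e : y = (lam T y * (lam T x)⁻¹ : gp T) * x := by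
            have e1 := lam_rep T y
            have e2 := lam_rep T x
            rw [ihr] at e1
            calc y = lam T y * rep T x := e1.symm
              _ = lam T y * ((lam T x : Γ)⁻¹ * (lam T x * rep T x)) := by group
              _ = _ := by rw [e2]; simp [mul_assoc]
          rw [e]
          exact hτ _ (Subtype.prop _) x
        rw [hyx] at h3
        refine ⟨by rw [← h2, rep_mul T (mem_gp hγ), ihr], ?_⟩
        have h4 : lam T z = ⟨γ, mem_gp hγ⟩ * lam T y := by
          rw [← h2]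
          exact lam_mul T ⟨γ, mem_gp hγ⟩ y
        have h5 : ∀ a, (θ (lam T y))⁻¹ ⟨γ, hγ⟩ = a → lam T z = flip θ a (lam T y) := by
          intro a ha
          have : θ (lam T y) a = ⟨γ, hγ⟩ := by
            rw [← ha]
            exact Equiv.apply_symm_apply _ _
          rw [h4]
          apply Subtype.ext
          show γ * (lam T y : Γ) = ((θ (lam T y) a : {x // x ∈ T}) : Γ) * (lam T y : Γ)
          rw [this]
        have hgm : ∀ j, g^[j] (lam T x) = g^[j + m] (lam T x) := by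
          intro j
          rw [Function.iterate_add_apply, hper]
        rcases h1 _ h3 with h6 | h6
        · have h7 := h5 u h6
          rcases ih with ih | ih
          · exact ⟨i, Or.inr (by rw [h7, ih])⟩
          · exact ⟨i, Or.inl (by rw [h7, ih, flip_flip θ hθ])⟩
        · have h7 := h5 v h6
          rcases ih with ih | ih
          · refine ⟨i + m - 1, Or.inr ?_⟩
            rw [h7, ih, hgm i]
            have e : i + m = (i + m - 1) + 1 := by omega
            conv_lhs => rw [e]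
            rw [Function.iterate_succ_apply']
            show flip θ v (flip θ v (flip θ u _)) = _
            rw [flip_flip θ hθ]
          · refine ⟨i + 1, Or.inl ?_⟩
            rw [h7, ih, Function.iterate_succ_apply']
    obtain ⟨hr, i, hi⟩ := key
    have hmod : ∀ j, g^[j] (lam T x) = g^[j % m] (lam T x) := by
      intro j
      exact (Function.IsPeriodicPt.iterate_mod_apply (hper (lam T x)) j).symm
    have hlt : i % m < m := Nat.mod_lt _ hm
    have hfin : ∀ η : Γ, (lam T y : Γ) = η * lam T x → y = η * x := by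
      intro η h
      rw [← lam_rep T y, h, hr, mul_assoc, lam_rep]
    rcases hi with hi | hi
    · rw [hmod i] at hi
      obtain ⟨η, h2, h3⟩ := flip_pow θ u v (lam T x) (i % m)
      refine ⟨η, pow_subset_pow (mem_insert _ _) (by omega) h2, hfin η ?_⟩
      rw [hi]
      exact h3
    · rw [hmod i] at hi
      obtain ⟨η, h2, h3⟩ := flip_pow' θ u v (lam T x) (i % m)
      refine ⟨η, pow_subset_pow (mem_insert _ _) (by omega) h2, hfin η ?_⟩
      rw [hi]
      exact h3

lemma Steps.of_fun {R : ℕ} (N : ℕ) (f : ℕ → Γ → Γ → Γ)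
    (h : ∀ i < N, Near T R (f i) (f (i + 1))) : Steps T R N (f 0) (f N) := by
  induction N generalizing f with
  | zero => exact .zero (Agree.refl _ _)
  | succ N ih =>
    exact .succ (h 0 (by omega)) (ih (fun i => f (i + 1)) fun i hi => h (i + 1) (by omega))

/-- Every value of `θ` is a product of exchanges. -/
lemma exists_list (hθ : IsBlock J T θ) (x : gp T) :
    ∃ l : List (Equiv.Perm {x // x ∈ T}), l.prod = θ x ∧
      ∀ τ ∈ l, ∃ u v, Exch θ u v ∧ u ≠ v ∧ ∀ w, τ w ≠ w → w = u ∨ w = v := by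
  classical
  let S : Set (Equiv.Perm {x // x ∈ T}) :=
    {τ | ∃ u v, Exch θ u v ∧ u ≠ v ∧ τ = Equiv.swap u v}
  have hS : ∀ f ∈ S, f.IsSwap := by
    rintro f ⟨u, v, -, hne, rfl⟩
    exact ⟨u, v, hne, rfl⟩
  have hmem : θ x ∈ Subgroup.closure S := by
    rw [mem_closure_isSwap hS]
    refine ⟨Set.toFinite _, fun t => ?_⟩
    have h1 := hθ.conn x t
    revert h1
    generalize θ x t = z
    intro h1
    induction h1 with
    | refl => exact MulAction.mem_orbit_self _
    | @tail b c _ hbc ih =>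
      by_cases hne : b = c
      · rwa [← hne]
      · have h2 : Equiv.swap b c ∈ Subgroup.closure S :=
          Subgroup.subset_closure ⟨b, c, hbc, hne, rfl⟩
        have h3 : c = (⟨Equiv.swap b c, h2⟩ : Subgroup.closure S) • b := by
          show c = Equiv.swap b c b
          rw [Equiv.swap_apply_left]
        rw [h3]
        exact MulAction.mem_orbit_of_mem_orbit _ ih
  have hmem' : θ x ∈ Submonoid.closure (S ∪ S⁻¹) := by
    rw [← Subgroup.closure_toSubmonoid]
    exact hmem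
  obtain ⟨l, h1, h2⟩ := Submonoid.exists_list_of_mem_closure hmem'
  refine ⟨l, h2, fun τ hτ => ?_⟩
  have h3 : τ ∈ S := by
    rcases h1 τ hτ with h | ⟨u, v, huv, hne, h⟩
    · exact h
    · refine ⟨u, v, huv, hne, ?_⟩
      rw [← inv_inv τ, h, Equiv.swap_inv]
  obtain ⟨u, v, huv, hne, rfl⟩ := h3
  refine ⟨u, v, huv, hne, fun w hw => ?_⟩
  by_contra hcon
  push Not at hcon
  exact hw (Equiv.swap_apply_of_ne_of_ne hcon.1 hcon.2)

/-- **Kempe blocks are Kempe homogeneous.** -/
theorem IsBlock.kempeHomJ (hθ : IsBlock J T θ) : KempeHomJ J T := by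
  classical
  -- a uniform bound for the lengths
  have hM : ∃ M : ℕ, ∀ u v, Exch θ u v → ∃ m, 0 < m ∧ m ≤ M ∧
      ∀ h : gp T, (fun y => flip θ v (flip θ u y))^[m] h = h := by
    choose! m h1 h2 using fun (p : {x // x ∈ T} × {x // x ∈ T}) (h : Exch θ p.1 p.2) => h
    refine ⟨Finset.univ.sup m, fun u v huv => ⟨m (u, v), h1 (u, v) huv,
      Finset.le_sup (f := m) (Finset.mem_univ (u, v)), h2 (u, v) huv⟩⟩
  obtain ⟨M, hM⟩ := hM
  -- a list for every permutation
  have hL : ∀ π : Equiv.Perm {x // x ∈ T}, ∃ l : List (Equiv.Perm {x // x ∈ T}),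
      ((∃ x, θ x = π) → l.prod = π) ∧
      ∀ τ ∈ l, ∃ u v, Exch θ u v ∧ u ≠ v ∧ ∀ w, τ w ≠ w → w = u ∨ w = v := by
    intro π
    by_cases h : ∃ x, θ x = π
    · obtain ⟨x, rfl⟩ := h
      obtain ⟨l, h1, h2⟩ := exists_list θ hθ x
      exact ⟨l, fun _ => h1, h2⟩
    · exact ⟨[], fun h' => absurd h' h, by simp⟩
  choose L hL1 hL2 using hL
  set N : ℕ := Finset.univ.sup (fun π => (L π).length) with hN
  have hlen : ∀ π, (L π).length ≤ N := fun π =>
    Finset.le_sup (f := fun π => (L π).length) (Finset.mem_univ π)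
  refine ⟨col θ (fun _ => 1), N, 2 * M + 1, col_isCol θ hθ _ fun _ _ _ => rfl, ?_, fun δ => ?_⟩
  · intro s hs hsJ x
    rw [col_apply θ _ hs]
    show (((θ (lam T x))⁻¹ ⟨s, hs⟩ : {x // x ∈ T}) : Γ) = s
    rw [← map_inv, hθ.fix s hs hsJ]
  · let π : Γ → Equiv.Perm {x // x ∈ T} := fun x => (θ (lam T (rep T x * δ)))⁻¹
    have hπ : ∀ h ∈ gp T, ∀ x, π (h * x) = π x := by
      intro h hh x
      simp only [π, rep_mul T hh]
    let f : ℕ → Γ → Γ → Γ := fun i => col θ (fun x => ((L (π x)).take i).prod)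
    have hst : Steps T (2 * M + 1) N (f 0) (f N) := by
      refine Steps.of_fun N f fun i _ => ?_
      have h1 : ∀ x, ((L (π x)).take (i + 1)).prod =
          ((L (π x)).take i).prod * ((L (π x))[i]?.toList).prod := by
        intro x
        rw [List.take_add_one, List.prod_append]
      have h2 : f (i + 1) = col θ (fun x => ((L (π x)).take i).prod *
          ((L (π x))[i]?.toList).prod) := by
        simp only [f, h1]
      rw [h2]
      refine near_step θ hθ hM _ _ ?_ ?_ ?_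
      · intro h hh x
        rw [hπ h hh]
      · intro h hh x
        rw [hπ h hh]
      · intro x
        cases h3 : (L (π x))[i]? with
        | none => left; simp
        | some τ =>
          right
          obtain ⟨u, v, h4, h5, h6⟩ := hL2 (π x) τ (List.mem_of_getElem? h3)
          exact ⟨u, v, h4, h5, by simpa using h6⟩
    have hf0 : f 0 = col θ (fun _ => 1) := by
      simp only [f, List.take_zero, List.prod_nil]
    rw [hf0] at hst
    have hag : f N = f N := rfl
    have hend : Agree T (f N) (fun γ x => col θ (fun _ => 1) γ (x * δ)) := by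
      intro γ hγ x
      show col θ (fun x => ((L (π x)).take N).prod) γ x = col θ (fun _ => 1) γ (x * δ)
      rw [col_apply θ _ hγ, col_apply θ _ hγ, List.take_of_length_le (hlen _),
        hL1 (π x) ⟨(lam T (rep T x * δ))⁻¹, by simp only [π, map_inv]⟩, lam_translate, map_mul,
        mul_inv_rev]
      rfl
    have h3 := hst.trans hθ.symm (m := 0) (.zero hend)
    rwa [Nat.add_zero] at h3

end block

end Pool.Agent.MP1822K
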