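import Pool.Agent.Lib.MP_1822da_lc.KC.Sub
import Pool.Agent.Lib.MP_1822da_lc.KC.Pairs

/-!
# Kempe homogeneity of `{g, g⁻¹, s}` in the wreath product of `ℤ` and `ℤ / 2`

The Cayley graph consists of the points `(a, b, e)`, `a, b ∈ ℤ`, `e ∈ {0, 1}`: `s` changes `e`, and
`g` adds one to `a` if `e = 0` and to `b` if `e = 1`. The seven colourings below have period `4`
in `a` and `b`; consecutive ones differ on finite cycles, and the last one is the translate of
the first one by `g`.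
-/

namespace Pool.Agent.MP1822K

open Set MeasureTheory Pointwise
open Pool.Agent.Lib.MP_1822da_lc Pool.Agent.MP1822T Pool.Agent.MP1822C

universe u v

/-- the colours of the horizontal edges of the seven colourings -/
def wrH : List (List (Fin 3)) := [
  [0, 0, 0, 0, 1, 1, 1, 1, 0, 0, 0, 0, 1, 1, 1, 1],
  [2, 2, 0, 0, 1, 1, 1, 1, 0, 0, 0, 0, 1, 1, 1, 1],
  [2, 2, 0, 0, 0, 0, 1, 1, 1, 1, 0, 0, 0, 0, 1, 1],
  [2, 2, 2, 2, 0, 0, 1, 1, 1, 1, 0, 0, 0, 0, 1, 1],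
  [2, 2, 2, 2, 0, 0, 0, 0, 1, 1, 1, 1, 0, 0, 0, 0],
  [1, 2, 2, 1, 0, 0, 0, 0, 1, 1, 1, 1, 0, 0, 0, 0],
  [1, 1, 1, 1, 0, 0, 0, 0, 1, 1, 1, 1, 0, 0, 0, 0]]

/-- the colours of the vertical edges -/
def wrV : List (List (Fin 3)) := [
  [0, 1, 0, 1, 0, 1, 0, 1, 0, 1, 0, 1, 0, 1, 0, 1],
  [2, 1, 0, 1, 2, 1, 0, 1, 0, 1, 0, 1, 0, 1, 0, 1],
  [2, 0, 1, 0, 2, 0, 1, 0, 0, 1, 0, 1, 0, 1, 0, 1],
  [0, 2, 1, 2, 0, 2, 1, 2, 0, 1, 0, 1, 0, 1, 0, 1],
  [0, 2, 0, 2, 0, 2, 0, 2, 0, 1, 0, 1, 0, 1, 0, 1],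
  [0, 2, 0, 1, 0, 2, 0, 1, 0, 1, 0, 1, 0, 1, 0, 1],
  [0, 1, 0, 1, 0, 1, 0, 1, 0, 1, 0, 1, 0, 1, 0, 1]]

/-- the potentials, first coordinate -/
def wrA : List (List ℤ) := [
  [0, 0, 0, 0, 1, 1, 0, 0, 0, 0, 0, 0, 0, 0, 0, 0, 0, 0, 0, 0, 1, 1, 0, 0, 0, 0, 0, 0, 0, 0, 0, 0],
  [0, 0, 0, 0, -3, -3, 0, 0, -2, -2, 0, 0, -1, -1, 0, 0, 0, 0, 0, 0, -3, -3, -3, -3, 0, 0, 0, 0, 0, 0, 0, 0],
  [0, 0, 0, 0, 0, 0, 1, 1, 0, 0, 0, 0, 0, 0, 0, 0, 0, 0, 0, 0, 1, 1, 1, 1, 0, 0, 0, 0, 0, 0, 0, 0],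
  [0, 0, 0, 0, 0, 0, -3, -3, 0, 0, -2, -2, 0, 0, -1, -1, 0, 0, 0, 0, 0, 0, -3, -3, 0, 0, 0, 0, 0, 0, 0, 0],
  [0, 0, 0, 0, 1, 0, 0, 1, 0, 0, 0, 0, 0, 0, 0, 0, 0, 0, 0, 0, 1, 0, 0, 1, 0, 0, 0, 0, 0, 0, 0, 0],
  [0, 0, 0, 0, 0, 1, 1, 0, 0, 0, 0, 0, 0, 0, 0, 0, 0, 0, 0, 0, 0, 1, 1, 0, 0, 0, 0, 0, 0, 0, 0, 0]]

/-- the potentials, second coordinate -/
def wrB : List (List ℤ) := [
  [0, 1, 0, 0, 0, 1, 0, 0, 0, 0, 0, 0, 0, 0, 0, 0, 0, 1, 0, 0, 0, 1, 0, 0, 0, 0, 0, 0, 0, 0, 0, 0],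
  [0, -3, 0, 0, 0, -3, 0, 0, 0, -3, 0, 0, 0, -3, 0, 0, 0, -3, -2, -1, 0, -3, -2, -1, 0, 0, 0, 0, 0, 0, 0, 0],
  [0, 0, 2, -1, 0, 0, 2, -1, 0, 0, 0, 0, 0, 0, 0, 0, 0, 1, 2, -1, 0, 1, 2, -1, 0, 0, 0, 0, 0, 0, 0, 0],
  [0, 0, 2, 3, 0, 0, 2, 3, 0, 0, 2, 3, 0, 0, 2, 3, 0, 0, 2, 3, 0, 0, 2, 3, 0, 0, 0, 0, 0, 0, 0, 0],
  [0, 0, 0, -1, 0, 0, 0, -1, 0, 0, 0, 0, 0, 0, 0, 0, 0, 0, 0, -1, 0, 0, 0, -1, 0, 0, 0, 0, 0, 0, 0, 0],
  [0, 1, 2, 0, 0, 1, 2, 0, 0, 0, 0, 0, 0, 0, 0, 0, 0, 1, 2, 0, 0, 1, 2, 0, 0, 0, 0, 0, 0, 0, 0, 0]]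

/-- colour of the horizontal edge -/
def wrh (i : ℕ) (a b : ZMod 4) : Fin 3 := (wrH.getD i []).getD (4 * a.val + b.val) 0

/-- colour of the vertical edge -/
def wrv (i : ℕ) (a b : ZMod 4) : Fin 3 := (wrV.getD i []).getD (4 * a.val + b.val) 0

/-- colour of the edge of type `t` (`0` for `g`, `1` for `g⁻¹`, `2` for `s`) at `(a, b, e)` -/
def wrC (i : ℕ) (a b : ZMod 4) (e : Bool) (t : Fin 3) : Fin 3 :=
  if t = 0 then (if e then wrv i a b else wrh i a b)
  else if t = 1 then (if e then wrv i a (b - 1) else wrh i (a - 1) b)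
  else -(wrh i (a - 1) b + wrh i a b)

/-- the step `g` -/
def wG (k : ℤ × ℤ × Bool) : ℤ × ℤ × Bool :=
  if k.2.2 then (k.1, k.2.1 + 1, true) else (k.1 + 1, k.2.1, false)

/-- the step `s` -/
def wS (k : ℤ × ℤ × Bool) : ℤ × ℤ × Bool := (k.1, k.2.1, !k.2.2)

/-- the potentials -/
def wrP (i : ℕ) (a b : ZMod 4) (e : Bool) : ℤ × ℤ × Bool :=
  ((wrA.getD i []).getD ((if e then 16 else 0) + 4 * a.val + b.val) 0,
    (wrB.getD i []).getD ((if e then 16 else 0) + 4 * a.val + b.val) 0, e)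

set_option maxRecDepth 100000 in
lemma wr_inj : ∀ i < 7, ∀ (a b : ZMod 4) (e : Bool) (t t' : Fin 3),
    wrC i a b e t = wrC i a b e t' → t = t' := by
  decide +kernel

lemma wr_s (i : ℕ) (a b : ZMod 4) (e : Bool) : wrC i a b (!e) 2 = wrC i a b e 2 := rfl

lemma wr_g (i : ℕ) (a b : ZMod 4) : wrC i (a + 1) b false 1 = wrC i a b false 0 := by
  simp [wrC]

lemma wr_g' (i : ℕ) (a b : ZMod 4) : wrC i a (b + 1) true 1 = wrC i a b true 0 := by
  simp [wrC]

set_option maxRecDepth 100000 in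
lemma wr_pg : ∀ i < 6, ∀ (a b : ZMod 4), wrC i a b false 0 ≠ wrC (i + 1) a b false 0 →
    wrP i (a + 1) b false = wG (wrP i a b false) := by
  decide +kernel

set_option maxRecDepth 100000 in
lemma wr_pg' : ∀ i < 6, ∀ (a b : ZMod 4), wrC i a b true 0 ≠ wrC (i + 1) a b true 0 →
    wrP i a (b + 1) true = wG (wrP i a b true) := by
  decide +kernel

set_option maxRecDepth 100000 in
lemma wr_ps : ∀ i < 6, ∀ (a b : ZMod 4) (e : Bool), wrC i a b e 2 ≠ wrC (i + 1) a b e 2 →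
    wrP i a b (!e) = wS (wrP i a b e) := by
  decide +kernel

set_option maxRecDepth 100000 in
lemma wr_end : ∀ (a b : ZMod 4) (e : Bool) (t : Fin 3),
    wrC 6 a b e t = wrC 0 (a + 1) b e t := by
  decide +kernel

set_option maxRecDepth 100000 in
lemma wr_swap : ∀ (a b : ZMod 4) (e : Bool) (t : Fin 3),
    wrC 0 b a (!e) t = wrC 0 a b e t := by
  decide +kernel

set_option maxRecDepth 100000 in
lemma wr_per : ∀ (a b i j : ZMod 4) (e : Bool) (t : Fin 3),
    wrC 0 (a + 2 * i) (b + 2 * j) e t = wrC 0 a b e t := by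
  decide +kernel

section group

variable {Γ : Type u} [Group Γ] {g s : Γ}

/-- the element with given coordinates -/
def wE (g s : Γ) (k : ℤ × ℤ × Bool) : Γ :=
  (if k.2.2 then s else 1) * (g ^ k.1 * (s * g * s) ^ k.2.1)

variable (hs : s * s = 1) (hc : g * (s * g * s) = s * g * s * g)
  (hb : Subgroup.zpowers g ⊓ Subgroup.zpowers (s * g * s) = ⊥) (hg : ¬ IsOfFinOrder g)

include hs in
lemma w_gs : g * s = s * (s * g * s) := by
  rw [mul_assoc s g s, ← mul_assoc s s, hs, one_mul]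

include hs hc in
lemma wE_G (k : ℤ × ℤ × Bool) : g * wE g s k = wE g s (wG k) := by
  obtain ⟨a, b, e⟩ := k
  have hcm : Commute g (s * g * s) := hc
  cases e
  · show g * ((if false then s else 1) * (g ^ a * (s * g * s) ^ b)) =
      (if false then s else 1) * (g ^ (a + 1) * (s * g * s) ^ b)
    simp only [Bool.false_eq_true, if_false, one_mul]
    rw [← mul_assoc, add_comm, zpow_one_add]
  · show g * ((if true then s else 1) * (g ^ a * (s * g * s) ^ b)) =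
      (if true then s else 1) * (g ^ a * (s * g * s) ^ (b + 1))
    simp only [if_true]
    rw [← mul_assoc, w_gs hs, mul_assoc, ← mul_assoc (s * g * s), ← (hcm.zpow_left a).eq,
      mul_assoc, add_comm b, zpow_one_add]

include hs in
lemma wE_S (k : ℤ × ℤ × Bool) : s * wE g s k = wE g s (wS k) := by
  obtain ⟨a, b, e⟩ := k
  cases e
  · show s * ((if false then s else 1) * (g ^ a * (s * g * s) ^ b)) =
      (if true then s else 1) * (g ^ a * (s * g * s) ^ b)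
    simp
  · show s * ((if true then s else 1) * (g ^ a * (s * g * s) ^ b)) =
      (if false then s else 1) * (g ^ a * (s * g * s) ^ b)
    simp only [if_true, Bool.false_eq_true, if_false, one_mul]
    rw [← mul_assoc, hs, one_mul]

include hs hc in
lemma wE_right (a b m n : ℤ) (e : Bool) :
    wE g s (a, b, e) * (g ^ m * (s * g * s) ^ n) = wE g s (a + m, b + n, e) := by
  have hcm : Commute g (s * g * s) := hc
  show (if e then s else 1) * (g ^ a * (s * g * s) ^ b) * (g ^ m * (s * g * s) ^ n) =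
    (if e then s else 1) * (g ^ (a + m) * (s * g * s) ^ (b + n))
  rw [mul_assoc, mul_assoc (g ^ a), ← mul_assoc ((s * g * s) ^ b) (g ^ m),
    ← (hcm.zpow_zpow m b).eq, zpow_add, zpow_add]
  group

include hs hc in
lemma wE_right_s (a b : ℤ) (e : Bool) : wE g s (a, b, e) * s = wE g s (b, a, !e) := by
  have hcm : Commute g (s * g * s) := hc
  have hs' : s⁻¹ = s := inv_eq_of_mul_eq_one_right hs
  have h1 : ∀ x y : Γ, s * (x * y) * s = (s * x * s) * (s * y * s) := by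
    intro x y
    calc s * (x * y) * s = s * x * (1 * (y * s)) := by group
      _ = s * x * ((s * s) * (y * s)) := by rw [hs]
      _ = _ := by group
  have h2 : s * g ^ a * s = (s * g * s) ^ a := by
    have := conj_zpow (a := s) (b := g) (i := a)
    rw [hs'] at this
    exact this.symm
  have h3 : s * (s * g * s) ^ b * s = g ^ b := by
    have := conj_zpow (a := s) (b := s * g * s) (i := b)
    rw [hs'] at this
    rw [← this]
    congr 1
    calc s * (s * g * s) * s = (s * s) * g * (s * s) := by group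
      _ = g := by rw [hs, one_mul, mul_one]
  have h4 : (g ^ a * (s * g * s) ^ b) * s = s * (g ^ b * (s * g * s) ^ a) := by
    have h5 : s * (g ^ a * (s * g * s) ^ b) * s = g ^ b * (s * g * s) ^ a := by
      rw [h1, h2, h3, (hcm.zpow_zpow b a).eq]
    rw [← h5]
    calc g ^ a * (s * g * s) ^ b * s = 1 * (g ^ a * (s * g * s) ^ b * s) := by group
      _ = (s * s) * (g ^ a * (s * g * s) ^ b * s) := by rw [hs]
      _ = _ := by group
  cases e
  · show (if false then s else 1) * (g ^ a * (s * g * s) ^ b) * s =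
      (if true then s else 1) * (g ^ b * (s * g * s) ^ a)
    simp only [if_true, Bool.false_eq_true, if_false, one_mul]
    exact h4
  · show (if true then s else 1) * (g ^ a * (s * g * s) ^ b) * s =
      (if false then s else 1) * (g ^ b * (s * g * s) ^ a)
    simp only [if_true, Bool.false_eq_true, if_false, one_mul]
    rw [mul_assoc, h4, ← mul_assoc, hs, one_mul]

include hs hc hb hg in
lemma wE_inj : Function.Injective (wE g s) := by
  have hcm : Commute g (s * g * s) := hc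
  have hgi : ∀ n : ℤ, g ^ n = 1 → n = 0 := by
    intro n hn
    by_contra h
    exact hg (isOfFinOrder_iff_zpow_eq_one.2 ⟨n, h, hn⟩)
  have hs' : s⁻¹ = s := inv_eq_of_mul_eq_one_right hs
  have hhi : ∀ n : ℤ, (s * g * s) ^ n = 1 → n = 0 := by
    intro n hn
    apply hgi
    have := conj_zpow (a := s) (b := g) (i := n)
    rw [hs', hn] at this
    calc g ^ n = (s * s) * g ^ n * (s * s) := by rw [hs, one_mul, mul_one]
      _ = s * (s * g ^ n * s) * s := by group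
      _ = 1 := by rw [← this, mul_one, hs]
  have key : ∀ a b : ℤ, g ^ a * (s * g * s) ^ b = 1 → a = 0 ∧ b = 0 := by
    intro a b h
    have h1 : g ^ a = (s * g * s) ^ (-b) := by
      rw [zpow_neg]
      exact eq_inv_of_mul_eq_one_left h
    have h2 : g ^ a ∈ Subgroup.zpowers g ⊓ Subgroup.zpowers (s * g * s) :=
      ⟨⟨a, rfl⟩, ⟨-b, h1.symm⟩⟩
    rw [hb, Subgroup.mem_bot] at h2
    refine ⟨hgi a h2, ?_⟩
    rw [h2, one_mul] at h
    exact hhi b h
  have hne : ∀ a b : ℤ, g ^ a * (s * g * s) ^ b ≠ s := by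
    intro a b h
    have h1 : Commute g s := by
      rw [← h]
      exact ((Commute.refl g).zpow_right a).mul_right (hcm.zpow_right b)
    have h2 : s * g * s = g := by
      rw [← h1.eq, mul_assoc, hs, mul_one]
    rw [h2, inf_idem] at hb
    have h3 : g ∈ (⊥ : Subgroup Γ) := hb ▸ Subgroup.mem_zpowers g
    rw [Subgroup.mem_bot] at h3
    exact hg (h3 ▸ IsOfFinOrder.one)
  have hdiff : ∀ a b a' b' : ℤ, (g ^ a * (s * g * s) ^ b) * (g ^ a' * (s * g * s) ^ b')⁻¹ =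
      g ^ (a - a') * (s * g * s) ^ (b - b') := by
    intro a b a' b'
    rw [mul_inv_rev, ← zpow_neg, ← zpow_neg, zpow_sub, zpow_sub, ← zpow_neg, ← zpow_neg]
    have h1 : (s * g * s) ^ (-b') * g ^ (-a') = g ^ (-a') * (s * g * s) ^ (-b') :=
      (hcm.zpow_zpow (-a') (-b')).eq.symm
    rw [h1]
    have h2 : (s * g * s) ^ b * g ^ (-a') = g ^ (-a') * (s * g * s) ^ b :=
      (hcm.zpow_zpow (-a') b).eq.symm
    calc g ^ a * (s * g * s) ^ b * (g ^ (-a') * (s * g * s) ^ (-b'))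
        = g ^ a * ((s * g * s) ^ b * g ^ (-a')) * (s * g * s) ^ (-b') := by group
      _ = _ := by rw [h2]; group
  rintro ⟨a, b, e⟩ ⟨a', b', e'⟩ h
  change (if e then s else 1) * (g ^ a * (s * g * s) ^ b) =
    (if e' then s else 1) * (g ^ a' * (s * g * s) ^ b') at h
  cases e <;> cases e' <;> simp only [Bool.false_eq_true, if_false, if_true, one_mul] at h
  · obtain ⟨h1, h2⟩ := key (a - a') (b - b') (by rw [← hdiff, h, mul_inv_cancel])
    have : a = a' := by omega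
    have : b = b' := by omega
    subst_vars
    rfl
  · exfalso
    apply hne (a - a') (b - b')
    rw [← hdiff, h, mul_inv_cancel_right]
  · exfalso
    apply hne (a' - a) (b' - b)
    rw [← hdiff, ← h, mul_inv_cancel_right]
  · have h := mul_left_cancel h
    obtain ⟨h1, h2⟩ := key (a - a') (b - b') (by rw [← hdiff, h, mul_inv_cancel])
    have : a = a' := by omega
    have : b = b' := by omega
    subst_vars
    rfl

include hs hc in
lemma wE_surj (hgen : Subgroup.closure ({g, s} : Set Γ) = ⊤) : Function.Surjective (wE g s) := by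
  have hs' : s⁻¹ = s := inv_eq_of_mul_eq_one_right hs
  have key : ∀ x ∈ Subgroup.closure ({g, s} : Set Γ), (∀ k, ∃ k', x * wE g s k = wE g s k') ∧
      (∀ k, ∃ k', x⁻¹ * wE g s k = wE g s k') := by
    intro x hx
    induction hx using Subgroup.closure_induction with
    | mem x hx =>
      rcases hx with rfl | rfl
      · refine ⟨fun k => ⟨_, wE_G hs hc k⟩, fun k => ?_⟩
        obtain ⟨a, b, e⟩ := k
        cases e
        · refine ⟨(a - 1, b, false), ?_⟩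
          rw [inv_mul_eq_iff_eq_mul, wE_G hs hc]
          show _ = wE x s (a - 1 + 1, b, false)
          rw [sub_add_cancel]
        · refine ⟨(a, b - 1, true), ?_⟩
          rw [inv_mul_eq_iff_eq_mul, wE_G hs hc]
          show _ = wE x s (a, b - 1 + 1, true)
          rw [sub_add_cancel]
      · exact ⟨fun k => ⟨_, wE_S hs k⟩, fun k => ⟨wS k, by rw [hs']; exact wE_S hs k⟩⟩
    | one => exact ⟨fun k => ⟨k, one_mul _⟩, fun k => ⟨k, by rw [inv_one, one_mul]⟩⟩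
    | mul x y _ _ hx hy =>
      constructor
      · intro k
        obtain ⟨k', h1⟩ := hy.1 k
        obtain ⟨k'', h2⟩ := hx.1 k'
        exact ⟨k'', by rw [mul_assoc, h1, h2]⟩
      · intro k
        obtain ⟨k', h1⟩ := hx.2 k
        obtain ⟨k'', h2⟩ := hy.2 k'
        exact ⟨k'', by rw [mul_inv_rev, mul_assoc, h1, h2]⟩
    | inv x _ hx => exact ⟨hx.2, by rw [inv_inv]; exact hx.1⟩
  intro x
  obtain ⟨k, hk⟩ := (key x (hgen ▸ Subgroup.mem_top x)).1 (0, 0, false)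
  refine ⟨k, ?_⟩
  rw [← hk]
  show x * ((if false then s else 1) * (g ^ (0 : ℤ) * (s * g * s) ^ (0 : ℤ))) = x
  simp

end group

end Pool.Agent.MP1822K
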