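import Pool.Agent.Lib.MP_1822da_lc.KC.Wr

/-!
# Kempe homogeneity of `{g, g⁻¹, s}` in the wreath product: the colourings
-/

namespace Pool.Agent.MP1822K

open Set MeasureTheory Pointwise
open Pool.Agent.Lib.MP_1822da_lc Pool.Agent.MP1822T Pool.Agent.MP1822C

universe u v

variable {Γ : Type u} [Group Γ] {g s : Γ}

section

variable [DecidableEq Γ]

/-- the colours -/
def wdec (g s : Γ) (t : Fin 3) : Γ := if t = 0 then g else if t = 1 then g⁻¹ else s

/-- the types -/
def wty (g : Γ) (γ : Γ) : Fin 3 := if γ = g then 0 else if γ = g⁻¹ then 1 else 2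

/-- the colourings, `κ` gives the coordinates -/
def wcol (g s : Γ) (κ : Γ → ℤ × ℤ × Bool) (i : ℕ) (γ x : Γ) : Γ :=
  wdec g s (wrC i ((κ x).1 : ZMod 4) ((κ x).2.1 : ZMod 4) (κ x).2.2 (wty g γ))

lemma wr_kempe {J : Finset Γ} (hJ : ∀ t ∈ J, t * t = 1) (hs : s * s = 1)
    (hc : g * (s * g * s) = s * g * s * g)
    (hb : Subgroup.zpowers g ⊓ Subgroup.zpowers (s * g * s) = ⊥) (hg : ¬ IsOfFinOrder g)
    (hgen : Subgroup.closure ({g, s} : Set Γ) = ⊤) : KempeHomJ J (tri g s) := by
  have hs' : s⁻¹ = s := inv_eq_of_mul_eq_one_right hs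
  have hsfin : IsOfFinOrder s := isOfFinOrder_iff_pow_eq_one.2 ⟨2, by norm_num, by rw [pow_two, hs]⟩
  have hgg : g * g ≠ 1 := fun h => hg (isOfFinOrder_iff_pow_eq_one.2
    ⟨2, by norm_num, by rw [pow_two, h]⟩)
  have hgi : g ≠ g⁻¹ := fun h => hgg (by
    nth_rewrite 2 [h]
    exact mul_inv_cancel g)
  have hgs : s ≠ g := fun h => hg (h ▸ hsfin)
  have hgs' : s ≠ g⁻¹ := fun h => hg (by
    rw [← isOfFinOrder_inv_iff, ← h]
    exact hsfin)
  have hsym : ∀ t ∈ tri g s, t⁻¹ ∈ tri g s := tri_symm hs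
  have hinj := wE_inj hs hc hb hg
  let κ : Γ → ℤ × ℤ × Bool := Function.surjInv (wE_surj hs hc hgen)
  have hκ : ∀ x, wE g s (κ x) = x := Function.surjInv_eq (wE_surj hs hc hgen)
  have hκg : ∀ x, κ (g * x) = wG (κ x) := by
    intro x
    apply hinj
    rw [hκ, ← wE_G hs hc, hκ]
  have hκs : ∀ x, κ (s * x) = wS (κ x) := by
    intro x
    apply hinj
    rw [hκ, ← wE_S hs, hκ]
  have hκr : ∀ x (m n : ℤ), κ (x * (g ^ m * (s * g * s) ^ n)) =
      ((κ x).1 + m, (κ x).2.1 + n, (κ x).2.2) := by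
    intro x m n
    apply hinj
    rw [hκ, ← wE_right hs hc]
    show _ = wE g s (κ x) * _
    rw [hκ]
  have hκrs : ∀ x, κ (x * s) = ((κ x).2.1, (κ x).1, !(κ x).2.2) := by
    intro x
    apply hinj
    rw [hκ, ← wE_right_s hs hc]
    show _ = wE g s (κ x) * _
    rw [hκ]
  have tyg : wty g g = 0 := by simp [wty]
  have tyi : wty g g⁻¹ = 1 := by simp [wty, hgi.symm]
  have tys : wty g s = 2 := by simp [wty, hgs, hgs']
  have decinj : ∀ t t', wdec g s t = wdec g s t' → t = t' := by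
    intro t t' h
    fin_cases t <;> fin_cases t' <;> simp_all [wdec]
    all_goals first | exact absurd h.symm hgs | exact absurd h hgs | exact absurd h.symm hgs' | exact absurd h hgs' | skip
  have decmem : ∀ t, wdec g s t ∈ tri g s := by
    intro t
    unfold wdec
    split_ifs
    · exact mem_tri.2 (Or.inl rfl)
    · exact mem_tri.2 (Or.inr (Or.inl rfl))
    · exact mem_tri.2 (Or.inr (Or.inr rfl))
  -- the edge of type `g`
  have hedge : ∀ i x, wcol g s κ i g⁻¹ (g * x) = wcol g s κ i g x := by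
    intro i x
    unfold wcol
    rw [hκg, tyg, tyi]
    obtain ⟨a, b, e⟩ := κ x
    cases e
    · show wdec g s (wrC i ((a + 1 : ℤ) : ZMod 4) (b : ZMod 4) false 1) = _
      rw [Int.cast_add, Int.cast_one, wr_g]
    · show wdec g s (wrC i (a : ZMod 4) ((b + 1 : ℤ) : ZMod 4) true 1) = _
      rw [Int.cast_add, Int.cast_one, wr_g']
  have hcol : ∀ i < 7, IsCol (tri g s) (wcol g s κ i) := by
    intro i hi
    refine ⟨fun γ _ x => decmem _, fun γ hγ x => ?_, fun x γ hγ δ hδ he => ?_⟩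
    · rcases mem_tri.1 hγ with rfl | rfl | rfl
      · exact hedge i x
      · have h1 := hedge i (g⁻¹ * x)
        rw [mul_inv_cancel_left] at h1
        rw [inv_inv]
        exact h1.symm
      · rw [hs']
        unfold wcol
        rw [hκs, tys]
        exact congrArg _ (wr_s i _ _ _)
    · have h1 := wr_inj i hi _ _ _ _ _ (decinj _ _ he)
      rcases mem_tri.1 hγ with rfl | rfl | rfl <;> rcases mem_tri.1 hδ with rfl | rfl | rfl
      · rfl
      · rw [tyg, tyi] at h1; exact absurd h1 (by decide)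
      · rw [tyg, tys] at h1; exact absurd h1 (by decide)
      · rw [tyg, tyi] at h1; exact absurd h1 (by decide)
      · rfl
      · rw [tys, tyi] at h1; exact absurd h1 (by decide)
      · rw [tyg, tys] at h1; exact absurd h1 (by decide)
      · rw [tys, tyi] at h1; exact absurd h1 (by decide)
      · rfl
  have hgenT : gp (tri g s) = ⊤ := by rw [gp_tri, hgen]
  have hnear : ∀ i < 6, ∃ R, Near (tri g s) R (wcol g s κ i) (wcol g s κ (i + 1)) := by
    intro i hi
    have hPg : ∀ x, wcol g s κ i g x ≠ wcol g s κ (i + 1) g x →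
        wE g s (wrP i ((κ (g * x)).1 : ZMod 4) ((κ (g * x)).2.1 : ZMod 4) (κ (g * x)).2.2) =
          g * wE g s (wrP i ((κ x).1 : ZMod 4) ((κ x).2.1 : ZMod 4) (κ x).2.2) := by
      intro x hx
      have hx' : wrC i ((κ x).1 : ZMod 4) ((κ x).2.1 : ZMod 4) (κ x).2.2 0 ≠
          wrC (i + 1) ((κ x).1 : ZMod 4) ((κ x).2.1 : ZMod 4) (κ x).2.2 0 := by
        intro h
        apply hx
        unfold wcol
        rw [tyg, h]
      rw [wE_G hs hc, hκg]
      congr 1
      revert hx'
      obtain ⟨a, b, e⟩ := κ x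
      cases e
      · intro hx'
        have := wr_pg i hi (a : ZMod 4) (b : ZMod 4) hx'
        show wrP i ((a + 1 : ℤ) : ZMod 4) (b : ZMod 4) false = _
        rw [Int.cast_add, Int.cast_one, this]
      · intro hx'
        have := wr_pg' i hi (a : ZMod 4) (b : ZMod 4) hx'
        show wrP i (a : ZMod 4) ((b + 1 : ℤ) : ZMod 4) true = _
        rw [Int.cast_add, Int.cast_one, this]
    refine near_of_potential hsym (hcol i (by omega)) (hcol (i + 1) (by omega))
      ((Finset.univ : Finset (ZMod 4 × ZMod 4 × Bool)).image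
        (fun q => wE g s (wrP i q.1 q.2.1 q.2.2))) (fun v _ => hgenT ▸ Subgroup.mem_top v)
      (fun x => wE g s (wrP i ((κ x).1 : ZMod 4) ((κ x).2.1 : ZMod 4) (κ x).2.2)) ?_ ?_
    · intro x
      exact Finset.mem_image.2 ⟨((κ x).1, (κ x).2.1, (κ x).2.2), Finset.mem_univ _, rfl⟩
    · intro γ hγ x hx
      rcases mem_tri.1 hγ with rfl | rfl | rfl
      · exact hPg x hx
      · have h1 : wcol g s κ i g (g⁻¹ * x) ≠ wcol g s κ (i + 1) g (g⁻¹ * x) := by
          intro h
          apply hx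
          have h2 := hedge i (g⁻¹ * x)
          have h3 := hedge (i + 1) (g⁻¹ * x)
          rw [mul_inv_cancel_left] at h2 h3
          rw [h2, h3, h]
        have h2 := hPg _ h1
        rw [mul_inv_cancel_left] at h2
        rw [h2, inv_mul_cancel_left]
      · have hx' : wrC i ((κ x).1 : ZMod 4) ((κ x).2.1 : ZMod 4) (κ x).2.2 2 ≠
            wrC (i + 1) ((κ x).1 : ZMod 4) ((κ x).2.1 : ZMod 4) (κ x).2.2 2 := by
          intro h
          apply hx
          unfold wcol
          rw [tys, h]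
        have := wr_ps i hi _ _ _ hx'
        show wE g γ (wrP i ((κ (γ * x)).1 : ZMod 4) ((κ (γ * x)).2.1 : ZMod 4) (κ (γ * x)).2.2) =
          γ * wE g γ (wrP i ((κ x).1 : ZMod 4) ((κ x).2.1 : ZMod 4) (κ x).2.2)
        rw [wE_S hs, hκs, ← this]
        rfl
  choose! R hR using hnear
  have hsteps : Steps (tri g s) ((Finset.range 6).sup R) 6 (wcol g s κ 0) (wcol g s κ 6) :=
    Steps.of_fun 6 (fun i => wcol g s κ i) fun i hi =>
      (hR i hi).mono (Finset.le_sup (f := R) (Finset.mem_range.2 hi))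
  have hend : Agree (tri g s) (wcol g s κ 6) (fun γ x => wcol g s κ 0 γ (x * g)) := by
    intro γ _ x
    show wcol g s κ 6 γ x = wcol g s κ 0 γ (x * g)
    unfold wcol
    have h1 := hκr x 1 0
    rw [zpow_one, zpow_zero, mul_one] at h1
    rw [h1]
    show wdec g s (wrC 6 _ _ _ _) = wdec g s (wrC 0 (((κ x).1 + 1 : ℤ) : ZMod 4)
      (((κ x).2.1 + 0 : ℤ) : ZMod 4) _ _)
    rw [wr_end, Int.cast_add, Int.cast_one, add_zero]
  refine KempeHomJ.of_periodic hsym hgenT (hcol 0 (by omega)) ?_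
    (((Finset.range 2 ×ˢ Finset.range 2) ×ˢ (Finset.univ : Finset Bool)).image
      (fun q => wE g s ((q.1.1 : ℤ), (q.1.2 : ℤ), q.2))) ?_ ?_
  · intro t ht htJ x
    have h2 := hJ t htJ
    rcases mem_tri.1 ht with h | h | h
    · exact absurd (h ▸ h2) hgg
    · subst h
      have h3 : g * g = 1 := by
        rw [← mul_inv_rev] at h2
        exact inv_eq_one.1 h2
      exact absurd h3 hgg
    · subst h
      unfold wcol
      rw [tys]
      have h4 : ∀ (a b : ZMod 4) (e : Bool), wrC 0 a b e 2 = 2 := by decide +kernel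
      rw [h4]
      rfl
  · intro δ
    obtain ⟨a, b, e, rfl⟩ : ∃ a b e, wE g s (a, b, e) = δ :=
      ⟨(κ δ).1, (κ δ).2.1, (κ δ).2.2, hκ δ⟩
    refine ⟨wE g s (a % 2, b % 2, e), Finset.mem_image.2
      ⟨(((a % 2).toNat, (b % 2).toNat), e), ?_, ?_⟩, fun γ _ x => ?_⟩
    · have ha := Int.emod_two_eq_zero_or_one a
      have hb := Int.emod_two_eq_zero_or_one b
      simp only [Finset.mem_product, Finset.mem_range, Finset.mem_univ, and_true]
      omega
    · have ha : (((a % 2).toNat : ℕ) : ℤ) = a % 2 := Int.toNat_of_nonneg (Int.emod_nonneg _ (by norm_num))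
      have hb : (((b % 2).toNat : ℕ) : ℤ) = b % 2 := Int.toNat_of_nonneg (Int.emod_nonneg _ (by norm_num))
      show wE g s ((((a % 2).toNat : ℕ) : ℤ), (((b % 2).toNat : ℕ) : ℤ), e) = _
      rw [ha, hb]
    · have h1 : wE g s (a, b, e) = wE g s (a % 2, b % 2, e) *
          (g ^ (2 * (a / 2)) * (s * g * s) ^ (2 * (b / 2))) := by
        rw [wE_right hs hc, Int.emod_add_mul_ediv, Int.emod_add_mul_ediv]
      show wcol g s κ 0 γ (x * wE g s (a, b, e)) = wcol g s κ 0 γ (x * wE g s (a % 2, b % 2, e))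
      rw [h1, ← mul_assoc]
      unfold wcol
      rw [hκr]
      show wdec g s (wrC 0 (((κ _).1 + 2 * (a / 2) : ℤ) : ZMod 4)
        (((κ _).2.1 + 2 * (b / 2) : ℤ) : ZMod 4) _ _) = _
      rw [Int.cast_add, Int.cast_add, Int.cast_mul, Int.cast_mul, Int.cast_ofNat]
      exact congrArg _ (wr_per _ _ _ _ _ _)
  · intro t ht
    rcases mem_tri.1 ht with rfl | rfl | rfl
    · exact ⟨6, _, Or.inl (hsteps.congr_right hsym hend)⟩
    · refine ⟨6, (Finset.range 6).sup R, Or.inr ?_⟩
      simp only [inv_inv]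
      exact hsteps.congr_right hsym hend
    · refine ⟨0, 0, Or.inl (.zero fun γ _ x => ?_)⟩
      show wcol g t κ 0 γ x = wcol g t κ 0 γ (x * t)
      unfold wcol
      rw [hκrs]
      exact congrArg _ (wr_swap _ _ _ _).symm

end

end Pool.Agent.MP1822K
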